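import Pool.Agent.Lib_MP_f1a94e_ap.CountY
import Pool.Agent.Lib_MP_92ef0c_ap.ProdLog

/-!
# MP_f1a94e_nt: almost primes `m ^ 2 + 1` with `Ω` in a class, the right order of magnitude up to logarithms: definitions
-/

set_option autoImplicit false

namespace Pool.Agent.OmKl

open Finset ArithmeticFunction Pool.Agent.OmAP

/-- pairs below `M` with `L ^ 2 b c = -1` modulo `r` -/
def PT (L r M : ℕ) : Finset (ℕ × ℕ) :=
  (range M ×ˢ range M).filter (fun t => r ∣ L ^ 2 * (t.1 * t.2) + 1)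

/-- `r ^ 2` times the norm of `u` in the basis `(r, L b), (L c, (L ^ 2 b c + 1) / r)` -/
def locF (u : ℤ × ℤ) (L r b c : ℕ) : ℤ :=
  (r * (u.1 * r + u.2 * (L * c))) ^ 2 + (u.2 + L * b * (u.1 * r + u.2 * (L * c))) ^ 2

end Pool.Agent.OmKl
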