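import Mathlib

/-!
# Kloosterman sums to prime moduli: the fourth moment bound

`‖∑_(x ≠ 0) e_r(m x + n / x)‖ ^ 4 ≤ 3 r ^ 3` if `(m, n) ≠ (0, 0)` (Kloosterman).
-/

set_option autoImplicit false

namespace Pool.Agent.Klo

open Finset

/-- the nonzero residues -/
def nz (r : ℕ) [NeZero r] : Finset (ZMod r) := univ.filter (fun x => x ≠ 0)

theorem mem_nz {r : ℕ} [NeZero r] {x : ZMod r} : x ∈ nz r ↔ x ≠ 0 := by
  unfold nz
  rw [mem_filter]
  exact ⟨fun h => h.2, fun h => ⟨mem_univ _, h⟩⟩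

/-- the Kloosterman sum -/
noncomputable def Kl (r : ℕ) [NeZero r] (m n : ZMod r) : ℂ :=
  ∑ x ∈ nz r, ZMod.stdAddChar (m * x + n * x⁻¹)

theorem card_nz (r : ℕ) [Fact r.Prime] : (nz r).card = r - 1 := by
  have h1 : nz r = univ.erase (0 : ZMod r) := by
    ext x
    rw [mem_nz, mem_erase]
    exact ⟨fun h => ⟨h, mem_univ _⟩, fun h => h.1⟩
  rw [h1, card_erase_of_mem (mem_univ _), card_univ, ZMod.card]

theorem norm_std (r : ℕ) [NeZero r] (x : ZMod r) : ‖ZMod.stdAddChar x‖ = 1 := by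
  rw [ZMod.stdAddChar_apply]
  exact Circle.norm_coe _

theorem kl_shift (r : ℕ) [Fact r.Prime] (m n t : ZMod r) (ht : t ≠ 0) : Kl r (m * t) (n * t⁻¹) = Kl r m n := by
  unfold Kl
  refine Finset.sum_nbij' (fun x => t * x) (fun x => t⁻¹ * x) ?_ ?_ ?_ ?_ ?_
  · intro x hx
    rw [mem_nz] at hx ⊢
    exact mul_ne_zero ht hx
  · intro x hx
    rw [mem_nz] at hx ⊢
    exact mul_ne_zero (inv_ne_zero ht) hx
  · intro x _
    rw [inv_mul_cancel_left₀ ht]
  · intro x _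
    rw [mul_inv_cancel_left₀ ht]
  · intro x _
    congr 1
    rw [mul_inv]
    ring

/-- orthogonality -/
theorem orth (r : ℕ) [Fact r.Prime] (b : ZMod r) :
    ∑ x : ZMod r, (ZMod.stdAddChar (x * b) : ℂ) = if b = 0 then (r : ℂ) else 0 := by
  have h := AddChar.sum_mulShift b (ZMod.isPrimitive_stdAddChar r)
  rw [h]
  split_ifs
  · rw [ZMod.card]
  · exact Nat.cast_zero

/-- the two coordinates of a pair -/
def ab {r : ℕ} (p : ZMod r × ZMod r) : ZMod r × ZMod r := (p.1 + p.2, p.1⁻¹ + p.2⁻¹)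

/-- at most `3 (r - 1)^2` quadruples -/
theorem quad_card (r : ℕ) [Fact r.Prime] :
    (((nz r ×ˢ nz r) ×ˢ (nz r ×ˢ nz r)).filter (fun q => ab q.1 = ab q.2)).card ≤ 3 * (r - 1) ^ 2 := by
  classical
  set S := nz r ×ˢ nz r with hS
  have hSc : S.card = (r - 1) ^ 2 := by
    rw [hS, card_product, card_nz, sq]
  have h1 : ((S ×ˢ S).filter (fun q => ab q.1 = ab q.2)).card =
      ∑ p ∈ S, (S.filter (fun p' => ab p = ab p')).card := by
    rw [card_filter, sum_product]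
    refine sum_congr rfl fun p _ => ?_
    rw [card_filter]
  rw [h1]
  -- split according to the sum
  rw [← sum_filter_add_sum_filter_not S (fun p => p.1 + p.2 = 0)]
  have h2 : ∑ p ∈ S.filter (fun p => p.1 + p.2 = 0), (S.filter (fun p' => ab p = ab p')).card ≤
      (r - 1) * (r - 1) := by
    have h3 : (S.filter (fun p : ZMod r × ZMod r => p.1 + p.2 = 0)).card ≤ r - 1 := by
      rw [← card_nz r]
      refine card_le_card_of_injOn (fun p => p.1) ?_ ?_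
      · intro p hp
        rw [mem_coe, mem_filter, hS, mem_product] at hp
        exact hp.1.1
      · intro p hp p' hp' h
        rw [mem_coe, mem_filter] at hp hp'
        have e1 : p.2 = -p.1 := eq_neg_of_add_eq_zero_right hp.2
        have e2 : p'.2 = -p'.1 := eq_neg_of_add_eq_zero_right hp'.2
        have h' : p.1 = p'.1 := h
        exact Prod.ext h' (by rw [e1, e2, h'])
    have h4 : ∀ p ∈ S.filter (fun p : ZMod r × ZMod r => p.1 + p.2 = 0),
        (S.filter (fun p' => ab p = ab p')).card ≤ r - 1 := by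
      intro p hp
      refine le_trans (card_le_card ?_) h3
      intro p' hp'
      rw [mem_filter] at hp hp' ⊢
      refine ⟨hp'.1, ?_⟩
      have e1 : p.1 + p.2 = p'.1 + p'.2 := congrArg Prod.fst hp'.2
      rw [← e1]
      exact hp.2
    calc ∑ p ∈ S.filter (fun p : ZMod r × ZMod r => p.1 + p.2 = 0), (S.filter (fun p' => ab p = ab p')).card
        ≤ ∑ _p ∈ S.filter (fun p : ZMod r × ZMod r => p.1 + p.2 = 0), (r - 1) := sum_le_sum h4
      _ = (S.filter (fun p : ZMod r × ZMod r => p.1 + p.2 = 0)).card * (r - 1) := by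
          rw [sum_const, smul_eq_mul]
      _ ≤ (r - 1) * (r - 1) := Nat.mul_le_mul_right _ h3
  have h5 : ∑ p ∈ S.filter (fun p => ¬ p.1 + p.2 = 0), (S.filter (fun p' => ab p = ab p')).card ≤
      (r - 1) ^ 2 * 2 := by
    have h4 : ∀ p ∈ S.filter (fun p : ZMod r × ZMod r => ¬ p.1 + p.2 = 0),
        (S.filter (fun p' => ab p = ab p')).card ≤ 2 := by
      intro p hp
      rw [mem_filter, hS, mem_product, mem_nz, mem_nz] at hp
      obtain ⟨⟨hx, hy⟩, hs⟩ := hp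
      refine le_trans (card_le_card (t := {p, (p.2, p.1)}) ?_) card_le_two
      intro p' hp'
      rw [mem_filter, hS, mem_product, mem_nz, mem_nz] at hp'
      obtain ⟨⟨hx', hy'⟩, hab⟩ := hp'
      have e1 : p.1 + p.2 = p'.1 + p'.2 := congrArg Prod.fst hab
      have e2 : p.1⁻¹ + p.2⁻¹ = p'.1⁻¹ + p'.2⁻¹ := congrArg Prod.snd hab
      have e3 : (p.1 + p.2) * (p'.1 * p'.2) = (p.1 + p.2) * (p.1 * p.2) := by
        have k1 : p.1⁻¹ + p.2⁻¹ = (p.1 + p.2) / (p.1 * p.2) := by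
          field_simp
          ring
        have k2 : p'.1⁻¹ + p'.2⁻¹ = (p'.1 + p'.2) / (p'.1 * p'.2) := by
          field_simp
          ring
        rw [k1, k2, ← e1, div_eq_div_iff (mul_ne_zero hx hy) (mul_ne_zero hx' hy')] at e2
        exact e2
      have e4 : p'.1 * p'.2 = p.1 * p.2 := mul_left_cancel₀ hs e3
      have e5 : (p'.1 - p.1) * (p'.1 - p.2) = 0 := by
        have k1 : p'.2 = p.1 + p.2 - p'.1 := by rw [e1]; ring
        rw [k1] at e4
        linear_combination -e4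
      rw [mem_insert, mem_singleton]
      rcases mul_eq_zero.1 e5 with h | h
      · left
        have k1 : p'.1 = p.1 := sub_eq_zero.1 h
        have k2 : p'.2 = p.2 := by
          rw [k1] at e1
          exact (add_left_cancel e1).symm
        exact Prod.ext k1 k2
      · right
        have k1 : p'.1 = p.2 := sub_eq_zero.1 h
        have k2 : p'.2 = p.1 := by
          rw [k1, add_comm p.1 p.2] at e1
          exact (add_left_cancel e1).symm
        exact Prod.ext k1 k2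
    calc ∑ p ∈ S.filter (fun p : ZMod r × ZMod r => ¬ p.1 + p.2 = 0), (S.filter (fun p' => ab p = ab p')).card
        ≤ ∑ _p ∈ S.filter (fun p : ZMod r × ZMod r => ¬ p.1 + p.2 = 0), 2 := sum_le_sum h4
      _ = (S.filter (fun p : ZMod r × ZMod r => ¬ p.1 + p.2 = 0)).card * 2 := by
          rw [sum_const, smul_eq_mul]
      _ ≤ S.card * 2 := Nat.mul_le_mul_right _ (card_le_card (filter_subset _ _))
      _ = (r - 1) ^ 2 * 2 := by rw [hSc]
  have h6 : (r - 1) * (r - 1) = (r - 1) ^ 2 := (sq _).symm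
  omega

/-- the fourth moment -/
theorem fourth (r : ℕ) [Fact r.Prime] :
    ∑ m : ZMod r, ∑ n : ZMod r, ‖Kl r m n‖ ^ 4 ≤ 3 * (r : ℝ) ^ 2 * ((r : ℝ) - 1) ^ 2 := by
  classical
  set S := nz r ×ˢ nz r with hS
  have hK2 : ∀ m n : ZMod r, Kl r m n ^ 2 = ∑ p ∈ S, (ZMod.stdAddChar (m * (ab p).1 + n * (ab p).2) : ℂ) := by
    intro m n
    unfold Kl
    rw [sq, sum_mul_sum, hS, sum_product]
    refine sum_congr rfl fun x _ => sum_congr rfl fun y _ => ?_
    rw [← AddChar.map_add_eq_mul]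
    congr 1
    unfold ab
    ring
  have hK4 : ∀ m n : ZMod r, ((‖Kl r m n‖ ^ 4 : ℝ) : ℂ) =
      ∑ q ∈ S ×ˢ S, (ZMod.stdAddChar (m * ((ab q.1).1 - (ab q.2).1)) : ℂ) *
        ZMod.stdAddChar (n * ((ab q.1).2 - (ab q.2).2)) := by
    intro m n
    have h1 : ((‖Kl r m n‖ ^ 4 : ℝ) : ℂ) = Kl r m n ^ 2 * (starRingEnd ℂ) (Kl r m n ^ 2) := by
      rw [Complex.mul_conj, Complex.normSq_eq_norm_sq, norm_pow]
      push_cast
      ring
    rw [h1, hK2, map_sum, sum_mul_sum, sum_product S S]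
    refine sum_congr rfl fun p _ => sum_congr rfl fun p' _ => ?_
    have h2 : (starRingEnd ℂ) (ZMod.stdAddChar (m * (ab p').1 + n * (ab p').2) : ℂ) =
        ZMod.stdAddChar (-(m * (ab p').1 + n * (ab p').2)) := by
      rw [AddChar.map_neg_eq_conj]
    rw [h2, ← AddChar.map_add_eq_mul, ← AddChar.map_add_eq_mul]
    congr 1
    ring
  have hsum : ((∑ m : ZMod r, ∑ n : ZMod r, ‖Kl r m n‖ ^ 4 : ℝ) : ℂ) =
      (r : ℂ) ^ 2 * (((S ×ˢ S).filter (fun q => ab q.1 = ab q.2)).card : ℂ) := by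
    rw [Complex.ofReal_sum]
    simp_rw [Complex.ofReal_sum, hK4]
    have h1 : ∑ m : ZMod r, ∑ n : ZMod r, ∑ q ∈ S ×ˢ S,
        (ZMod.stdAddChar (m * ((ab q.1).1 - (ab q.2).1)) : ℂ) * ZMod.stdAddChar (n * ((ab q.1).2 - (ab q.2).2)) =
        ∑ q ∈ S ×ˢ S, (∑ m : ZMod r, (ZMod.stdAddChar (m * ((ab q.1).1 - (ab q.2).1)) : ℂ)) *
          ∑ n : ZMod r, (ZMod.stdAddChar (n * ((ab q.1).2 - (ab q.2).2)) : ℂ) := by
      have g1 : ∀ m ∈ (univ : Finset (ZMod r)), ∑ n : ZMod r, ∑ q ∈ S ×ˢ S,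
          (ZMod.stdAddChar (m * ((ab q.1).1 - (ab q.2).1)) : ℂ) * ZMod.stdAddChar (n * ((ab q.1).2 - (ab q.2).2)) =
          ∑ q ∈ S ×ˢ S, ∑ n : ZMod r, (ZMod.stdAddChar (m * ((ab q.1).1 - (ab q.2).1)) : ℂ) *
            ZMod.stdAddChar (n * ((ab q.1).2 - (ab q.2).2)) := fun m _ => sum_comm
      rw [sum_congr rfl g1, sum_comm]
      exact sum_congr rfl (fun q _ => (sum_mul_sum _ _ _ _).symm)
    rw [h1]
    simp_rw [orth]
    rw [card_filter, Nat.cast_sum, mul_sum]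
    refine sum_congr rfl fun q _ => ?_
    by_cases h2 : ab q.1 = ab q.2
    · rw [h2]
      simp
      ring
    · rw [if_neg h2]
      have h3 : ¬ ((ab q.1).1 - (ab q.2).1 = 0 ∧ (ab q.1).2 - (ab q.2).2 = 0) := by
        rintro ⟨k1, k2⟩
        exact h2 (Prod.ext (sub_eq_zero.1 k1) (sub_eq_zero.1 k2))
      rw [not_and_or] at h3
      rcases h3 with h3 | h3
      · rw [if_neg h3]
        simp
      · rw [if_neg h3]
        simp
  have hcard := quad_card r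
  have hreal : (∑ m : ZMod r, ∑ n : ZMod r, ‖Kl r m n‖ ^ 4 : ℝ) =
      (r : ℝ) ^ 2 * (((S ×ˢ S).filter (fun q => ab q.1 = ab q.2)).card : ℝ) := by
    exact_mod_cast hsum
  rw [hreal]
  have hr1 : 1 ≤ r := (Fact.out : r.Prime).one_lt.le
  have h2 : ((((S ×ˢ S).filter (fun q => ab q.1 = ab q.2)).card : ℕ) : ℝ) ≤ 3 * ((r : ℝ) - 1) ^ 2 := by
    have h3 : ((((S ×ˢ S).filter (fun q => ab q.1 = ab q.2)).card : ℕ) : ℝ) ≤ ((3 * (r - 1) ^ 2 : ℕ) : ℝ) := by
      exact_mod_cast hcard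
    rw [Nat.cast_mul, Nat.cast_pow, Nat.cast_sub hr1] at h3
    push_cast at h3
    exact h3
  calc (r : ℝ) ^ 2 * (((S ×ˢ S).filter (fun q => ab q.1 = ab q.2)).card : ℝ) ≤ (r : ℝ) ^ 2 * (3 * ((r : ℝ) - 1) ^ 2) :=
        mul_le_mul_of_nonneg_left h2 (by positivity)
    _ = _ := by ring

/-- **Kloosterman's bound** -/
theorem kl_bound (r : ℕ) [Fact r.Prime] (m n : ZMod r) (h : m ≠ 0 ∨ n ≠ 0) :
    ‖Kl r m n‖ ^ 4 ≤ 3 * (r : ℝ) ^ 3 := by
  classical
  have hr : 1 < r := (Fact.out : r.Prime).one_lt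
  have hr' : (1 : ℝ) < r := by exact_mod_cast hr
  have h1 : ((r : ℝ) - 1) * ‖Kl r m n‖ ^ 4 ≤ ∑ m : ZMod r, ∑ n : ZMod r, ‖Kl r m n‖ ^ 4 := by
    have h2 : ((r : ℝ) - 1) * ‖Kl r m n‖ ^ 4 = ∑ t ∈ nz r, ‖Kl r (m * t) (n * t⁻¹)‖ ^ 4 := by
      have h3 : ∀ t ∈ nz r, ‖Kl r (m * t) (n * t⁻¹)‖ ^ 4 = ‖Kl r m n‖ ^ 4 := by
        intro t ht
        rw [kl_shift r m n t (mem_nz.1 ht)]
      rw [sum_congr rfl h3, sum_const, card_nz, nsmul_eq_mul, Nat.cast_sub hr.le, Nat.cast_one]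
    rw [h2, ← sum_product']
    have hinj : Set.InjOn (fun t : ZMod r => (m * t, n * t⁻¹)) (nz r) := by
      intro t ht t' ht' hh
      rw [mem_coe, mem_nz] at ht ht'
      rw [Prod.mk.injEq] at hh
      rcases h with h | h
      · exact mul_left_cancel₀ h hh.1
      · exact inv_injective (mul_left_cancel₀ h hh.2)
    have h4 : ∑ t ∈ nz r, ‖Kl r (m * t) (n * t⁻¹)‖ ^ 4 =
        ∑ x ∈ (nz r).image (fun t : ZMod r => (m * t, n * t⁻¹)), ‖Kl r x.1 x.2‖ ^ 4 := by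
      rw [sum_image hinj]
    rw [h4]
    exact sum_le_sum_of_subset_of_nonneg (fun x _ => by simp) (fun x _ _ => by positivity)
  have h2 := h1.trans (fourth r)
  have h3 : ((r : ℝ) - 1) * ‖Kl r m n‖ ^ 4 ≤ ((r : ℝ) - 1) * (3 * (r : ℝ) ^ 2 * ((r : ℝ) - 1)) := by
    refine h2.trans (le_of_eq ?_)
    ring
  have h4 : ‖Kl r m n‖ ^ 4 ≤ 3 * (r : ℝ) ^ 2 * ((r : ℝ) - 1) :=
    le_of_mul_le_mul_left h3 (by linarith)
  refine h4.trans ?_
  have h5 : (0 : ℝ) ≤ 3 * (r : ℝ) ^ 2 := by positivity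
  nlinarith

end Pool.Agent.Klo
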