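import Pool.Agent.Lib_MP_f1a94e_kl.Defs

/-!
# Piece KL8: from a basis to an almost prime
-/

set_option autoImplicit false

namespace Pool.Agent.OmKl

open Finset ArithmeticFunction Pool.Agent.OmAP

/-- PROOF. The second half of the proof of `one_pair` (ap/CountY.lean, from `transferA` on), with the bound `Bd ≤ Y ^ E` for the norms. -/
theorem one_base {q : ℕ} {A : Set (ZMod q)} {Q : ℕ} {V : Finset (ℤ × ℤ)} (hV : IsCertA q A Q V)
    (F P L : ℕ) (hL : L = F * P ^ 2) (hP : 0 < P) (hF : 0 < F) (h2F : 2 ∣ F)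
    (hP1 : ∀ u ∈ V, nm u ∣ (P : ℤ)) (hP3 : ∀ u ∈ V, ∀ v ∈ V, dt u v ≠ 0 → dt u v ∣ (P : ℤ))
    (z w : ℤ × ℤ) (hdet : dt z w = 1) (hz1 : (L : ℤ) ∣ z.1 - 1) (hz2 : (L : ℤ) ∣ z.2)
    (hw1 : (L : ℤ) ∣ w.1) (hw2 : (L : ℤ) ∣ w.2 - 1) (Y Bd E : ℕ) (hY : 2 ≤ Y)
    (hBd : ∀ s ∈ V, nm (lin s z w) ≤ (Bd : ℤ)) (hE : Bd ≤ Y ^ E)
    (hts : ∀ s ∈ V, ∀ p : ℕ, p.Prime → p ≤ Y → ¬ p ∣ L → ¬ (p : ℤ) ∣ nm (lin s z w)) :
    ∃ u ∈ V, ∃ v ∈ V, ∃ n : ℤ, dt u v ≠ 0 ∧ dp (lin u z w) (lin v z w) = dt u v * n ∧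
      Even n ∧ (om (n ^ 2 + 1) : ZMod q) ∈ A ∧
      om (n ^ 2 + 1) ≤ 2 * (cardFactors P + E) ∧
      om ((dt u v) ^ 2 * (n ^ 2 + 1)) ≤ 2 * (cardFactors P + E) ∧
      n.natAbs ≤ Bd ∧
      ∃ s r : ℕ, n.natAbs ^ 2 + 1 = s * r ∧ s ≤ P ^ 2 ∧ s.Coprime Q ∧
        ∀ p, p.Prime → p ∣ r → Y < p := by
  have hPL : (P : ℤ) ∣ L := by
    rw [hL]; push_cast; exact ⟨F * P, by ring⟩
  have hFL : F ∣ L := by rw [hL]; exact dvd_mul_right _ _
  have h2L : (2 : ℤ) ∣ L := by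
    have h := h2F.trans hFL
    exact_mod_cast h
  obtain ⟨u, hu, v, hv, n, hD, hDdvd, hn, hev, hcls, hom1, hom2, hprod, hsize⟩ :=
    transferA hV (L : ℤ) h2L (fun u hu v hv h => (hP3 u hu v hv h).trans hPL) z w hdet hz1 hz2
      hw1 hw2
  have hodd := hV.1
  have hrough : ∀ s ∈ V, ∃ r : ℕ, (nm (lin s z w)).natAbs = (nm s).natAbs * r ∧ r ≠ 0 ∧
      ∀ p, p.Prime → p ∣ r → Y < p := by
    intro s hs
    have hsub := nm_lin_sub (L : ℤ) s z w hz1 hz2 hw1 hw2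
    have hodd' : Odd (nm (lin s z w)) := by
      obtain ⟨c, hc⟩ := h2L.trans hsub
      obtain ⟨d, hd⟩ := (hodd s hs).1
      exact ⟨c + d, by linear_combination hc + hd⟩
    exact rough_part s (lin s z w) (hodd s hs).1 L P F Y hL (hP1 s hs) hsub
      hodd' (fun p hp hpY hpL => hts s hs p hp hpY hpL)
  have hnm0 : ∀ s ∈ V, (nm s).natAbs ≠ 0 := by
    intro s hs h0
    rw [Int.natAbs_eq_zero] at h0
    have h1 := (hodd s hs).1
    rw [h0] at h1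
    exact absurd h1 (by decide)
  have hOm : ∀ s ∈ V, om (nm (lin s z w)) ≤ cardFactors P + E := by
    intro s hs
    obtain ⟨r, hr, hr0, hrp⟩ := hrough s hs
    have hs0 := hnm0 s hs
    have hrle : r ≤ Y ^ E := by
      have h1 : r ≤ (nm (lin s z w)).natAbs := by
        rw [hr]; exact Nat.le_mul_of_pos_left _ (Nat.pos_of_ne_zero hs0)
      have h2 : (nm (lin s z w)).natAbs ≤ Bd := by
        have h3 := hBd s hs
        have h4 := nm_nonneg (lin s z w)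
        omega
      omega
    have h7 := cardFactors_rough (nm s).natAbs r Y E hs0 hr0 hY hrp hrle
    have h8 : cardFactors (nm s).natAbs ≤ cardFactors P :=
      cardFactors_le_of_dvd (by exact Int.natAbs_dvd_natAbs.mpr (hP1 s hs)) hP.ne'
    have h9 : om (nm (lin s z w)) = cardFactors ((nm s).natAbs * r) := by
      rw [om, hr]
    rw [h9]
    omega
  refine ⟨u, hu, v, hv, n, hD, hn, hev, hcls, ?_, ?_, ?_, ?_⟩
  · have h1 := hOm u hu
    have h2 := hOm v hv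
    omega
  · have h1 := hOm u hu
    have h2 := hOm v hv
    omega
  · have h1 := hBd u hu
    have h2 := hBd v hv
    have h3 : n ^ 2 ≤ (Bd : ℤ) ^ 2 := by
      have h4 : nm (lin u z w) * nm (lin v z w) ≤ (Bd : ℤ) * Bd :=
        mul_le_mul h1 h2 (nm_nonneg _) (by positivity)
      nlinarith
    have h5 : |n| ≤ (Bd : ℤ) := abs_le_of_sq_le_sq h3 (by positivity)
    have h6 : ((n.natAbs : ℕ) : ℤ) ≤ (Bd : ℤ) := by rw [Int.natCast_natAbs]; exact h5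
    exact_mod_cast h6
  · obtain ⟨ru, hru, hru0, hrup⟩ := hrough u hu
    obtain ⟨rv, hrv, hrv0, hrvp⟩ := hrough v hv
    obtain ⟨m0, hm0⟩ := hDdvd
    have e1 : nm u * nm v = (dt u v) ^ 2 * (m0 ^ 2 + 1) := by
      have h4 := dp_sq_add_dt_sq u v
      rw [hm0] at h4
      linear_combination -h4
    have key : ∀ k : ℤ, (k ^ 2 + 1).natAbs = k.natAbs ^ 2 + 1 := by
      intro k
      have h1 : (k ^ 2 + 1) = ((k.natAbs ^ 2 + 1 : ℕ) : ℤ) := by
        push_cast; rw [sq_abs]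
      rw [h1, Int.natAbs_natCast]
    have e2 : (nm u).natAbs * (nm v).natAbs = (dt u v).natAbs ^ 2 * (m0.natAbs ^ 2 + 1) := by
      rw [← Int.natAbs_mul, e1, Int.natAbs_mul, Int.natAbs_pow, key]
    have e3 : (nm u).natAbs * ru * ((nm v).natAbs * rv) =
        (dt u v).natAbs ^ 2 * (n.natAbs ^ 2 + 1) := by
      rw [← hru, ← hrv, ← Int.natAbs_mul, hprod, Int.natAbs_mul, Int.natAbs_pow, key]
    have hD0 : (dt u v).natAbs ^ 2 ≠ 0 := pow_ne_zero 2 (Int.natAbs_ne_zero.mpr hD)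
    refine ⟨m0.natAbs ^ 2 + 1, ru * rv, ?_, ?_, ?_, ?_⟩
    · apply mul_left_cancel₀ hD0
      rw [← e3]
      calc (nm u).natAbs * ru * ((nm v).natAbs * rv)
          = (nm u).natAbs * (nm v).natAbs * (ru * rv) := by ring
        _ = _ := by rw [e2]; ring
    · have h1 : m0.natAbs ^ 2 + 1 ≤ (nm u).natAbs * (nm v).natAbs := by
        rw [e2]; exact Nat.le_mul_of_pos_left _ (Nat.pos_of_ne_zero hD0)
      have h2 : ∀ s ∈ V, (nm s).natAbs ≤ P := by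
        intro s hs
        have h3 := Int.natAbs_dvd_natAbs.mpr (hP1 s hs)
        rw [Int.natAbs_natCast] at h3
        exact Nat.le_of_dvd hP h3
      refine h1.trans ?_
      rw [sq]
      exact Nat.mul_le_mul (h2 u hu) (h2 v hv)
    · have h1 : (m0.natAbs ^ 2 + 1) ∣ (nm u).natAbs * (nm v).natAbs := by
        rw [e2]; exact dvd_mul_left _ _
      exact Nat.Coprime.coprime_dvd_left h1
        (Nat.Coprime.mul_left (hV.1 u hu).2.2 (hV.1 v hv).2.2)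
    · intro p hp hpr
      rcases hp.dvd_mul.mp hpr with h | h
      · exact hrup p hp h
      · exact hrvp p hp h

/-- PROOF. As `fibre_one` (ap/CountY.lean): `U = lin u z w` determines `W = lin v z w`, and `U, W` determine `z, w` (`v.2 U - u.2 W = dt u v z`, `u.1 W - v.1 U = dt u v w`); `mult_bound` for the image of `U`. -/
theorem fibre_two (u v : ℤ × ℤ) (n : ℤ) (hD : dt u v ≠ 0) (R P : ℕ)
    (hP : (dt u v).natAbs ≤ P) (hR : om ((dt u v) ^ 2 * (n ^ 2 + 1)) ≤ R) (S : Finset ((ℤ × ℤ) × (ℤ × ℤ)))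
    (h : ∀ s ∈ S, dt s.1 s.2 = 1 ∧ dp (lin u s.1 s.2) (lin v s.1 s.2) = dt u v * n) :
    S.card ≤ 2 ^ R * (4 * P + 1) ^ 2 := by
  classical
  have hd : ∀ s ∈ S, dt (lin u s.1 s.2) (lin v s.1 s.2) = dt u v := by
    intro s hs
    rw [dt_lin, (h s hs).1, mul_one]
  have hp : ∀ s ∈ S, dp (lin u s.1 s.2) (lin v s.1 s.2) = dt u v * n := fun s hs => (h s hs).2
  have hinj : Set.InjOn (fun s : (ℤ × ℤ) × (ℤ × ℤ) => lin u s.1 s.2) S := by
    intro s hs s' hs' hU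
    simp only at hU
    have hs1 := hd s hs
    have hs2 := hp s hs
    have hs1' := hd s' hs'
    have hs2' := hp s' hs'
    obtain ⟨⟨a, b⟩, ⟨c, d⟩⟩ := s
    obtain ⟨⟨a', b'⟩, ⟨c', d'⟩⟩ := s'
    obtain ⟨u1, u2⟩ := u
    obtain ⟨v1, v2⟩ := v
    simp only [lin, Prod.mk.injEq] at hU
    obtain ⟨hU1, hU2⟩ := hU
    simp only [lin, dt, dp] at hs1 hs2 hs1' hs2' hD
    obtain ⟨X, hX⟩ : ∃ X, X = u1 * a + u2 * c := ⟨_, rfl⟩
    obtain ⟨Z, hZ⟩ : ∃ Z, Z = u1 * b + u2 * d := ⟨_, rfl⟩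
    obtain ⟨W1, hW1⟩ : ∃ W1, W1 = v1 * a + v2 * c := ⟨_, rfl⟩
    obtain ⟨W2, hW2⟩ : ∃ W2, W2 = v1 * b + v2 * d := ⟨_, rfl⟩
    obtain ⟨W1', hW1'⟩ : ∃ W1', W1' = v1 * a' + v2 * c' := ⟨_, rfl⟩
    obtain ⟨W2', hW2'⟩ : ∃ W2', W2' = v1 * b' + v2 * d' := ⟨_, rfl⟩
    rw [← hX, ← hZ, ← hW1, ← hW2] at hs1 hs2
    rw [← hU1, ← hU2, ← hX, ← hZ, ← hW1', ← hW2'] at hs1' hs2'
    have hn0 : X ^ 2 + Z ^ 2 ≠ 0 := by
      intro h0
      have hX0 : X = 0 := by nlinarith [sq_nonneg X, sq_nonneg Z]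
      have hZ0 : Z = 0 := by nlinarith [sq_nonneg X, sq_nonneg Z]
      rw [hX0, hZ0] at hs1
      exact hD (by linarith)
    have e1 : (X ^ 2 + Z ^ 2) * W1 = (X ^ 2 + Z ^ 2) * W1' := by
      linear_combination X * hs2 - Z * hs1 - X * hs2' + Z * hs1'
    have e2 : (X ^ 2 + Z ^ 2) * W2 = (X ^ 2 + Z ^ 2) * W2' := by
      linear_combination Z * hs2 + X * hs1 - Z * hs2' - X * hs1'
    have f1 := mul_left_cancel₀ hn0 e1
    have f2 := mul_left_cancel₀ hn0 e2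
    have k1 : a = a' := by
      apply mul_left_cancel₀ hD
      rw [hW1, hW1'] at f1
      linear_combination v2 * hU1 - u2 * f1
    have k2 : b = b' := by
      apply mul_left_cancel₀ hD
      rw [hW2, hW2'] at f2
      linear_combination v2 * hU2 - u2 * f2
    have k3 : c = c' := by
      apply mul_left_cancel₀ hD
      rw [hW1, hW1'] at f1
      linear_combination u1 * f1 - v1 * hU1
    have k4 : d = d' := by
      apply mul_left_cancel₀ hD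
      rw [hW2, hW2'] at f2
      linear_combination u1 * f2 - v1 * hU2
    rw [k1, k2, k3, k4]
  have hcard : S.card = (S.image (fun s : (ℤ × ℤ) × (ℤ × ℤ) => lin u s.1 s.2)).card :=
    (card_image_of_injOn hinj).symm
  rw [hcard]
  refine (mult_bound (dt u v) n hD (S.image (fun s : (ℤ × ℤ) × (ℤ × ℤ) => lin u s.1 s.2)) ?_).trans ?_
  · intro x hx
    obtain ⟨s, hs, rfl⟩ := mem_image.mp hx
    exact ⟨lin v s.1 s.2, hd s hs, hp s hs⟩
  · exact Nat.mul_le_mul (Nat.pow_le_pow_right (by norm_num) hR)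
      (Nat.pow_le_pow_left (by omega) 2)

end Pool.Agent.OmKl
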