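import Pool.Agent.Lib_MP_f1a94e_kl.Kl10a
import Pool.Agent.Lib_MP_f1a94e_kl.Kl8

/-!
# From many good bases to many almost primes
-/

set_option autoImplicit false

namespace Pool.Agent.OmKl

open Finset ArithmeticFunction Pool.Agent.OmAP

/-- the data of a base -/
def OneB (q : ℕ) (A : Set (ZMod q)) (Q : ℕ) (V : Finset (ℤ × ℤ)) (P Y Bd R : ℕ) (z w u v : ℤ × ℤ) (n : ℤ) : Prop :=
  u ∈ V ∧ v ∈ V ∧ dt u v ≠ 0 ∧ dp (lin u z w) (lin v z w) = dt u v * n ∧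
      Even n ∧ (om (n ^ 2 + 1) : ZMod q) ∈ A ∧
      om (n ^ 2 + 1) ≤ R ∧
      om ((dt u v) ^ 2 * (n ^ 2 + 1)) ≤ R ∧
      n.natAbs ≤ Bd ∧
      ∃ s r : ℕ, n.natAbs ^ 2 + 1 = s * r ∧ s ≤ P ^ 2 ∧ s.Coprime Q ∧
        ∀ p, p.Prime → p ∣ r → Y < p

theorem count_bases {q : ℕ} {A : Set (ZMod q)} {Q : ℕ} {V : Finset (ℤ × ℤ)} {P Y Bd R E R' : ℕ} (hP : 0 < P)
    (hP3 : ∀ u ∈ V, ∀ v ∈ V, dt u v ≠ 0 → dt u v ∣ (P : ℤ))
    (hBd : Bd ≤ Y ^ E) (hR1 : R ≤ R') (hR2 : P ^ 2 ≤ R') (hR3 : E ≤ R') (hE : 0 < E)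
    {ι : Type*} (S : Finset ι) (f : ι → (ℤ × ℤ) × (ℤ × ℤ)) (hf : Set.InjOn f S)
    (hdet : ∀ x ∈ S, dt (f x).1 (f x).2 = 1)
    (h : ∀ x ∈ S, ∃ u v : ℤ × ℤ, ∃ n : ℤ, OneB q A Q V P Y Bd R (f x).1 (f x).2 u v n) :
    S.card ≤ 2 ^ R * (4 * P + 1) ^ 2 * (V.card * (V.card * 2) *
      Set.ncard {m : ℕ | m ≤ Bd ∧ Good q A Q R' m}) := by
  classical
  choose! u v n hu hv hD hdp hev hcls hom1 hom2 hsz hfac using h
  set g : ι → (ℤ × ℤ) × (ℤ × ℤ) × ℤ := fun s => (u s, v s, n s) with hg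
  have step1 : S.card ≤ 2 ^ R * (4 * P + 1) ^ 2 * (S.image g).card := by
    apply card_le_mul_card_image
    intro b hb
    obtain ⟨s0, hs0, rfl⟩ := mem_image.mp hb
    have hinj : Set.InjOn f ((S.filter (fun x => g x = g s0) : Finset ι) : Set ι) :=
      hf.mono (by intro x hx; exact (mem_filter.mp hx).1)
    rw [← card_image_of_injOn hinj]
    refine fibre_two (u s0) (v s0) (n s0) (hD s0 hs0) R P ?_ (hom2 s0 hs0) _ ?_
    · have h1 := Int.natAbs_dvd_natAbs.mpr (hP3 _ (hu s0 hs0) _ (hv s0 hs0) (hD s0 hs0))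
      rw [Int.natAbs_natCast] at h1
      exact Nat.le_of_dvd hP h1
    · intro s hs
      obtain ⟨x, hx, rfl⟩ := mem_image.mp hs
      obtain ⟨hxS, hxg⟩ := mem_filter.mp hx
      simp only [hg, Prod.mk.injEq] at hxg
      obtain ⟨e1, e2, e3⟩ := hxg
      refine ⟨hdet x hxS, ?_⟩
      rw [← e1, ← e2, ← e3]
      exact hdp x hxS
  have step2 : (S.image g).card ≤ V.card * (V.card * 2) *
      ((S.image g).image fun b : (ℤ × ℤ) × (ℤ × ℤ) × ℤ => b.2.2.natAbs).card := by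
    apply card_le_mul_card_image
    intro m hm
    have hsub : ((S.image g).filter fun b : (ℤ × ℤ) × (ℤ × ℤ) × ℤ => b.2.2.natAbs = m) ⊆
        V ×ˢ (V ×ˢ ({(m : ℤ), -(m : ℤ)} : Finset ℤ)) := by
      intro b hb
      obtain ⟨hb1, hb2⟩ := mem_filter.mp hb
      obtain ⟨s, hs, rfl⟩ := mem_image.mp hb1
      simp only [hg] at hb2 ⊢
      rw [mem_product, mem_product]
      refine ⟨hu s hs, hv s hs, ?_⟩
      rw [mem_insert, mem_singleton]
      exact Int.natAbs_eq_iff.mp hb2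
    refine (card_le_card hsub).trans ?_
    rw [card_product, card_product]
    exact Nat.mul_le_mul_left _ (Nat.mul_le_mul_left _ card_le_two)
  have hfin : {m : ℕ | m ≤ Bd ∧ Good q A Q R' m}.Finite :=
    (Set.finite_Iic Bd).subset fun m hm => hm.1
  have step3 : ((S.image g).image fun b : (ℤ × ℤ) × (ℤ × ℤ) × ℤ => b.2.2.natAbs).card ≤
      Set.ncard {m : ℕ | m ≤ Bd ∧ Good q A Q R' m} := by
    rw [← Set.ncard_coe_finset]
    apply Set.ncard_le_ncard _ hfin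
    intro m hm
    rw [mem_coe, mem_image] at hm
    obtain ⟨b, hb, rfl⟩ := hm
    obtain ⟨s, hs, rfl⟩ := mem_image.mp hb
    have hkey : om ((n s) ^ 2 + 1) = cardFactors ((n s).natAbs ^ 2 + 1) := by
      rw [om]
      congr 1
      have h1 : ((n s) ^ 2 + 1) = (((n s).natAbs ^ 2 + 1 : ℕ) : ℤ) := by
        push_cast; rw [sq_abs]
      rw [h1, Int.natAbs_natCast]
    obtain ⟨s', r', hsr, hs', hQ', hr'⟩ := hfac s hs
    refine ⟨hsz s hs, Int.natAbs_even.mpr (hev s hs), ?_, ?_, s', r', hsr, hs'.trans hR2, hQ', ?_⟩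
    · change cardFactors ((n s).natAbs ^ 2 + 1) ≤ R'
      rw [← hkey]; exact (hom1 s hs).trans hR1
    · change ((cardFactors ((n s).natAbs ^ 2 + 1) : ℕ) : ZMod q) ∈ A
      rw [← hkey]; exact hcls s hs
    · intro p hp hpr
      have h1 := hr' p hp hpr
      change (n s).natAbs < p ^ R'
      calc (n s).natAbs ≤ Bd := hsz s hs
        _ ≤ Y ^ E := hBd
        _ < p ^ E := Nat.pow_lt_pow_left h1 (by omega)
        _ ≤ p ^ R' := Nat.pow_le_pow_right hp.pos hR3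
  calc S.card ≤ 2 ^ R * (4 * P + 1) ^ 2 * (S.image g).card := step1
    _ ≤ 2 ^ R * (4 * P + 1) ^ 2 * (V.card * (V.card * 2) *
      Set.ncard {m : ℕ | m ≤ Bd ∧ Good q A Q R' m}) := by
        refine Nat.mul_le_mul_left _ (step2.trans (Nat.mul_le_mul_left _ step3))

end Pool.Agent.OmKl
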