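import Pool.Agent.Lib_MP_f1a94e_kl.Defs

/-!
# Piece KL9: bookkeeping
-/

set_option autoImplicit false

namespace Pool.Agent.OmKl

open Finset ArithmeticFunction Pool.Agent.OmAP

/-- powers of the logarithm are small against the square root -/
private theorem kl9_log (R : ℕ) (B : ℝ) (hB : 0 < B) :
    ∀ᶠ N : ℕ in Filter.atTop, B * Real.log N ^ R ≤ √(N : ℝ) := by
  have h1 := (Real.isLittleO_pow_log_id_atTop (n := R)).bound
    (c := 1 / (B * 2 ^ R)) (by positivity)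
  have h2 : Filter.Tendsto (fun N : ℕ => √(N : ℝ)) Filter.atTop Filter.atTop :=
    Real.tendsto_sqrt_atTop.comp tendsto_natCast_atTop_atTop
  filter_upwards [h2.eventually h1, Filter.eventually_ge_atTop 1] with N hN hN1
  have hN0 : (1 : ℝ) ≤ N := by exact_mod_cast hN1
  have hL : Real.log N = 2 * Real.log √(N : ℝ) := by
    rw [Real.log_sqrt (by linarith)]
    ring
  have hl0 : 0 ≤ Real.log √(N : ℝ) := by
    rw [Real.log_sqrt (by linarith)]
    have := Real.log_nonneg hN0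
    linarith
  rw [Real.norm_of_nonneg (by positivity), id, Real.norm_of_nonneg (Real.sqrt_nonneg _)] at hN
  rw [hL, mul_pow]
  calc B * (2 ^ R * Real.log √(N : ℝ) ^ R) ≤ B * (2 ^ R * (1 / (B * 2 ^ R) * √(N : ℝ))) := by
        gcongr
    _ = √(N : ℝ) := by field_simp

/-- PROOF. `X = ⌊(N / (C + 1) ^ 2)^(1/4) / 2⌋` or similar: `(C X^2)^2 + 1 ≤ N` and `X ≥ c' N^(1/4)`, `X → ∞`, `log X ≤ log N`; `m ↦ m^2 + 1` is injective from the set of `h` into the set of the claim. So the number is at least `c c'^2 √N / (log N)^R ≥ √N / (log N)^(R+1)` for large `N`. -/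
theorem convert_log (P : ℕ → Prop) (C R : ℕ) (c : ℝ) (hc : 0 < c)
    (h : ∀ᶠ X : ℕ in Filter.atTop, c * (X : ℝ) ^ 2 / Real.log X ^ R ≤ Set.ncard {m : ℕ | m ≤ C * X ^ 2 ∧ P m}) :
    ∀ᶠ N : ℕ in Filter.atTop, √(N : ℝ) / Real.log N ^ (R + 1) ≤
      Set.ncard {k : ℕ | k ≤ N ∧ ∃ m : ℕ, k = m ^ 2 + 1 ∧ P m} := by
  set C1 : ℕ := C + 1 with hC1
  have hC1R : (1 : ℝ) ≤ C1 := by rw [hC1]; push_cast; linarith [(Nat.cast_nonneg C : (0 : ℝ) ≤ C)]
  set D : ℝ := 2 * C1 with hD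
  have hD0 : 0 < D := by positivity
  have hD1 : 1 ≤ D := by linarith
  set e : ℝ := 1 / 4 with he
  have he0 : 0 < e := by positivity
  set Y : ℕ → ℕ := fun N => ⌊(N : ℝ) ^ e / D⌋₊ with hY
  have hpow : Filter.Tendsto (fun N : ℕ => (N : ℝ) ^ e) Filter.atTop Filter.atTop :=
    (tendsto_rpow_atTop he0).comp tendsto_natCast_atTop_atTop
  have hYt : Filter.Tendsto Y Filter.atTop Filter.atTop :=
    tendsto_nat_floor_atTop.comp (hpow.atTop_div_const hD0)
  set c' : ℝ := c / (2 * D) ^ 2 with hc'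
  have hc'0 : 0 < c' := by positivity
  have hlog : Filter.Tendsto (fun N : ℕ => Real.log N) Filter.atTop Filter.atTop :=
    Real.tendsto_log_atTop.comp tendsto_natCast_atTop_atTop
  filter_upwards [hYt.eventually h, hYt.eventually_ge_atTop 2, hpow.eventually_ge_atTop (2 * D),
    Filter.eventually_ge_atTop 2, hlog.eventually_ge_atTop (max 1 (1 / c'))] with N h1 h2 h3 h4 h5
  have hN2 : (2 : ℝ) ≤ N := by exact_mod_cast h4
  have hN0 : (0 : ℝ) < N := by linarith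
  have hL1 : 1 ≤ Real.log N := (le_max_left _ _).trans h5
  have hLc : 1 / c' ≤ Real.log N := (le_max_right _ _).trans h5
  have hYle : (Y N : ℝ) ≤ (N : ℝ) ^ e / D := Nat.floor_le (by positivity)
  -- lower bound for `Y N`
  have hlow : (N : ℝ) ^ e / (2 * D) ≤ (Y N : ℝ) := by
    have h5 : (N : ℝ) ^ e / D < (Y N : ℝ) + 1 := Nat.lt_floor_add_one _
    have h6 : (N : ℝ) ^ e / (2 * D) = (N : ℝ) ^ e / D / 2 := by field_simp
    have h7 : 2 ≤ (N : ℝ) ^ e / D := by rw [le_div_iff₀ hD0]; exact h3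
    rw [h6]
    linarith
  have hsq : ((N : ℝ) ^ e) ^ 2 = √(N : ℝ) := by
    rw [← Real.rpow_natCast ((N : ℝ) ^ e), ← Real.rpow_mul hN0.le, Real.sqrt_eq_rpow]
    congr 1
    rw [he]
    norm_num
  have hlow2 : c' * √(N : ℝ) ≤ c * (Y N : ℝ) ^ 2 := by
    have h5 : ((N : ℝ) ^ e / (2 * D)) ^ 2 ≤ (Y N : ℝ) ^ 2 :=
      pow_le_pow_left₀ (by positivity) hlow _
    rw [div_pow, hsq] at h5
    calc c' * √(N : ℝ) = c * (√(N : ℝ) / (2 * D) ^ 2) := by rw [hc']; ring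
      _ ≤ c * (Y N : ℝ) ^ 2 := mul_le_mul_of_nonneg_left h5 hc.le
  have hYN : (Y N : ℝ) ≤ N := by
    have h6 : (N : ℝ) ^ e ≤ (N : ℝ) := by
      calc (N : ℝ) ^ e ≤ (N : ℝ) ^ (1 : ℝ) :=
            Real.rpow_le_rpow_of_exponent_le (by linarith) (by rw [he]; norm_num)
        _ = N := Real.rpow_one _
    have h7 : (N : ℝ) ^ e / D ≤ (N : ℝ) ^ e := div_le_self (by positivity) hD1
    linarith
  have hY2 : (2 : ℝ) ≤ Y N := by exact_mod_cast h2
  have hlY : 0 < Real.log (Y N : ℝ) := Real.log_pos (by linarith)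
  have hlYN : Real.log (Y N : ℝ) ≤ Real.log N := Real.log_le_log (by linarith) hYN
  have hLR : 0 < Real.log (N : ℝ) ^ R := by positivity
  have hfin : √(N : ℝ) / Real.log N ^ (R + 1) ≤ c * (Y N : ℝ) ^ 2 / Real.log (Y N : ℝ) ^ R := by
    calc √(N : ℝ) / Real.log N ^ (R + 1) ≤ c' * √(N : ℝ) / Real.log N ^ R := by
          rw [div_le_div_iff₀ (by positivity) hLR, pow_succ]
          have h6 : 1 ≤ c' * Real.log N := by
            rw [div_le_iff₀ hc'0] at hLc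
            linarith
          have h7 : 0 ≤ √(N : ℝ) * Real.log N ^ R := by positivity
          nlinarith
      _ ≤ c' * √(N : ℝ) / Real.log (Y N : ℝ) ^ R := by
          apply div_le_div_of_nonneg_left (by positivity) (by positivity)
          exact pow_le_pow_left₀ hlY.le hlYN _
      _ ≤ c * (Y N : ℝ) ^ 2 / Real.log (Y N : ℝ) ^ R :=
          div_le_div_of_nonneg_right hlow2 (by positivity)
  refine hfin.trans (h1.trans ?_)
  -- upper bound for `Y N`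
  have hup : (C1 * Y N ^ 2) ^ 2 + 1 ≤ N := by
    have h6 : (Y N : ℝ) ^ 4 ≤ ((N : ℝ) ^ e / D) ^ 4 :=
      pow_le_pow_left₀ (Nat.cast_nonneg _) hYle _
    have h7 : ((N : ℝ) ^ e / D) ^ 4 = (N : ℝ) / D ^ 4 := by
      rw [div_pow, ← Real.rpow_natCast ((N : ℝ) ^ e), ← Real.rpow_mul hN0.le]
      congr 1
      rw [he]
      push_cast
      have : (1 / 4 : ℝ) * 4 = 1 := by norm_num
      rw [this, Real.rpow_one]
    have h8 : D ^ 2 ≤ D ^ 4 := pow_le_pow_right₀ hD1 (by omega)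
    have h9 : (Y N : ℝ) ^ 4 ≤ N / D ^ 2 := by
      rw [h7] at h6
      refine h6.trans ?_
      exact div_le_div_of_nonneg_left hN0.le (by positivity) h8
    have h10 : ((C1 : ℝ) * (Y N : ℝ) ^ 2) ^ 2 ≤ N / 4 := by
      have e1 : ((C1 : ℝ) * (Y N : ℝ) ^ 2) ^ 2 = (C1 : ℝ) ^ 2 * (Y N : ℝ) ^ 4 := by ring
      rw [e1]
      calc (C1 : ℝ) ^ 2 * (Y N : ℝ) ^ 4 ≤ (C1 : ℝ) ^ 2 * (N / D ^ 2) :=
            mul_le_mul_of_nonneg_left h9 (by positivity)
        _ = N / 4 := by rw [hD]; field_simp; norm_num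
    have h11 : ((C1 : ℝ) * (Y N : ℝ) ^ 2) ^ 2 + 1 ≤ N := by linarith
    exact_mod_cast h11
  -- injection
  have hfinS : (Set.Finite {k : ℕ | k ≤ N ∧ ∃ m : ℕ, k = m ^ 2 + 1 ∧ P m}) :=
    (Set.finite_Iic N).subset fun k hk => hk.1
  have hinj : Set.InjOn (fun m : ℕ => m ^ 2 + 1) {m : ℕ | m ≤ C * Y N ^ 2 ∧ P m} := by
    intro x _ y _ hxy
    simp only at hxy
    have : x ^ 2 = y ^ 2 := by omega
    exact (Nat.pow_left_injective (by norm_num : 2 ≠ 0)) this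
  have hle := Set.ncard_le_ncard_of_injOn (s := {m : ℕ | m ≤ C * Y N ^ 2 ∧ P m})
    (t := {k : ℕ | k ≤ N ∧ ∃ m : ℕ, k = m ^ 2 + 1 ∧ P m}) (fun m : ℕ => m ^ 2 + 1)
    (by
      intro m hm
      refine ⟨?_, m, rfl, hm.2⟩
      have h5 : m ≤ C1 * Y N ^ 2 := by
        refine hm.1.trans ?_
        rw [hC1]
        exact Nat.mul_le_mul_right _ (Nat.le_succ C)
      have h6 : m ^ 2 ≤ (C1 * Y N ^ 2) ^ 2 := Nat.pow_le_pow_left h5 2
      show m ^ 2 + 1 ≤ N
      omega) hinj hfinS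
  exact_mod_cast hle

/-- PROOF. As `almost_prime_rough` (ap/AlmostPrime.lean) from `almost_prime` there. -/
theorem rough_log {q : ℕ} {A : Set (ZMod q)} {P0 R : ℕ}
    (h : ∀ᶠ N : ℕ in Filter.atTop, √(N : ℝ) / Real.log N ^ R ≤
      Set.ncard {k : ℕ | k ≤ N ∧ ∃ m : ℕ, k = m ^ 2 + 1 ∧ Good q A P0.factorial R m}) :
    ∃ R' : ℕ, ∀ᶠ N : ℕ in Filter.atTop, √(N : ℝ) / Real.log N ^ R' ≤
      Set.ncard {k : ℕ | k ≤ N ∧ (∃ m : ℕ, Even m ∧ k = m ^ 2 + 1) ∧
        (∀ p : ℕ, p.Prime → p ∣ k → P0 < p) ∧ cardFactors k ≤ R' ∧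
        ((cardFactors k : ℕ) : ZMod q) ∈ A ∧
        ∃ s r : ℕ, k = s * r ∧ s ≤ R' ∧ ∀ p : ℕ, p.Prime → p ∣ r → k < p ^ R'} := by
  obtain ⟨R', hR'⟩ : ∃ R', R' = 2 * R + 1 := ⟨_, rfl⟩
  refine ⟨R', ?_⟩
  have hlog : Filter.Tendsto (fun N : ℕ => Real.log N) Filter.atTop Filter.atTop :=
    Real.tendsto_log_atTop.comp tendsto_natCast_atTop_atTop
  filter_upwards [h, hlog.eventually_ge_atTop 2, Filter.eventually_ge_atTop 1,
    kl9_log R (2 * ((P0 ^ R' + 1 : ℕ) : ℝ)) (by positivity)] with N hN h1 h3 h2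
  have hN1 : (1 : ℝ) ≤ N := by exact_mod_cast h3
  have hN0 : (0 : ℝ) < N := by linarith
  set S1 : Set ℕ := {k : ℕ | k ≤ N ∧ ∃ m : ℕ, k = m ^ 2 + 1 ∧ Good q A P0.factorial R m} with hS1
  set S2 : Set ℕ := {k : ℕ | k ≤ N ∧ (∃ m : ℕ, Even m ∧ k = m ^ 2 + 1) ∧
        (∀ p : ℕ, p.Prime → p ∣ k → P0 < p) ∧ cardFactors k ≤ R' ∧
        ((cardFactors k : ℕ) : ZMod q) ∈ A ∧
        ∃ s r : ℕ, k = s * r ∧ s ≤ R' ∧ ∀ p : ℕ, p.Prime → p ∣ r → k < p ^ R'} with hS2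
  have hfin2 : S2.Finite := (Set.finite_Iic N).subset fun k hk => hk.1
  have hsub : S1 ⊆ S2 ∪ ((Finset.range (P0 ^ R' + 1) : Finset ℕ) : Set ℕ) := by
    rintro k ⟨hkN, m, rfl, hev, hcard, hcls, s, r, hsr, hsR, hcop, hr⟩
    by_cases hbig : m ^ 2 + 1 < P0 ^ R' + 1
    · right
      rw [Finset.mem_coe, Finset.mem_range]
      exact hbig
    · left
      have hs0 : s ≠ 0 := by
        rintro rfl
        rw [zero_mul] at hsr
        omega
      have hR1 : 1 ≤ R := by omega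
      have hpr : ∀ p : ℕ, p.Prime → p ∣ r → m ^ 2 + 1 < p ^ R' := by
        intro p hp hpr
        have h4 := hr p hp hpr
        have h5 : 2 ≤ p ^ R := by
          calc 2 ≤ p := hp.two_le
            _ = p ^ 1 := (pow_one p).symm
            _ ≤ p ^ R := Nat.pow_le_pow_right hp.pos hR1
        have h6 : p ^ (2 * R) = p ^ R * p ^ R := by rw [two_mul, pow_add]
        have h7 : p ^ (2 * R) ≤ p ^ R' := Nat.pow_le_pow_right hp.pos (by omega)
        have h8 : m ^ 2 + 1 < p ^ R * p ^ R := by nlinarith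
        omega
      refine ⟨hkN, ⟨m, hev, rfl⟩, ?_, by omega, hcls, s, r, hsr, by omega, hpr⟩
      intro p hp hpk
      rw [hsr] at hpk
      rcases hp.dvd_mul.mp hpk with h7 | h7
      · by_contra hle
        push Not at hle
        have h8 : p ∣ P0.factorial := Nat.dvd_factorial hp.pos hle
        have h9 := Nat.dvd_gcd h7 h8
        rw [hcop] at h9
        exact hp.one_lt.ne' (Nat.dvd_one.mp h9)
      · by_contra hle
        push Not at hle
        have h8 := hpr p hp h7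
        have h9 : p ^ R' ≤ P0 ^ R' := Nat.pow_le_pow_left hle _
        omega
  have hcard : S1.ncard ≤ S2.ncard + (P0 ^ R' + 1) := by
    have h4 := Set.ncard_le_ncard hsub (hfin2.union (Finset.finite_toSet _))
    have h5 := Set.ncard_union_le S2 ((Finset.range (P0 ^ R' + 1) : Finset ℕ) : Set ℕ)
    rw [Set.ncard_coe_finset, Finset.card_range] at h5
    exact h4.trans h5
  have hcard' : (S1.ncard : ℝ) ≤ S2.ncard + ((P0 ^ R' + 1 : ℕ) : ℝ) := by exact_mod_cast hcard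
  have hLR : 0 < Real.log (N : ℝ) ^ R := by positivity
  have e1 : √(N : ℝ) / Real.log N ^ R' ≤ √(N : ℝ) / Real.log N ^ R / 2 := by
    have h4 : Real.log (N : ℝ) ^ R * 2 ≤ Real.log (N : ℝ) ^ R' := by
      calc Real.log (N : ℝ) ^ R * 2 ≤ Real.log (N : ℝ) ^ R * Real.log N :=
            mul_le_mul_of_nonneg_left h1 hLR.le
        _ = Real.log (N : ℝ) ^ (R + 1) := (pow_succ _ _).symm
        _ ≤ Real.log (N : ℝ) ^ R' := pow_le_pow_right₀ (by linarith) (by omega)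
    rw [div_div]
    exact div_le_div_of_nonneg_left (Real.sqrt_nonneg _) (by positivity) h4
  have e2 : ((P0 ^ R' + 1 : ℕ) : ℝ) ≤ √(N : ℝ) / Real.log N ^ R / 2 := by
    rw [div_div, le_div_iff₀ (by positivity)]
    linarith
  linarith

end Pool.Agent.OmKl
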