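import Pool.Agent.Lib_MP_f1a94e_kl.Kl5
import Pool.Agent.Lib_MP_f1a94e_kl.Kl10b
import Pool.Agent.Lib_MP_f1a94e_kl.Kl9
import Pool.Agent.Lib_MP_f1937f_jb.PiAP

/-!
# Counting
-/

set_option autoImplicit false

namespace Pool.Agent.OmKl

open Finset ArithmeticFunction Pool.Agent.OmAP

/-- a common modulus -/
theorem exists_P {q : ℕ} {A : Set (ZMod q)} {Q : ℕ} {V : Finset (ℤ × ℤ)} (hV : IsCertA q A Q V) :
    ∃ P : ℕ, 0 < P ∧ (∀ u ∈ V, nm u ∣ (P : ℤ)) ∧ (∀ u ∈ V, u.2 ∣ (P : ℤ)) ∧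
      ∀ u ∈ V, ∀ v ∈ V, dt u v ≠ 0 → dt u v ∣ (P : ℤ) := by
  classical
  obtain ⟨P, hP⟩ : ∃ P : ℕ, P = (∏ u ∈ V, ((nm u).natAbs * (u.2).natAbs)) *
      ∏ u ∈ V, ∏ v ∈ V, (if dt u v = 0 then 1 else (dt u v).natAbs) := ⟨_, rfl⟩
  have hnm0 : ∀ u ∈ V, (nm u).natAbs ≠ 0 := by
    intro s hs h0
    rw [Int.natAbs_eq_zero] at h0
    have h1 := (hV.1 s hs).1
    rw [h0] at h1
    exact absurd h1 (by decide)
  refine ⟨P, ?_, ?_, ?_, ?_⟩
  · rw [hP]
    apply Nat.mul_pos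
    · apply prod_pos
      intro u hu
      exact Nat.mul_pos (Nat.pos_of_ne_zero (hnm0 u hu))
        (Int.natAbs_pos.mpr (hV.1 u hu).2.1)
    · apply prod_pos
      intro u _
      apply prod_pos
      intro v _
      split_ifs with h0
      · exact one_pos
      · exact Int.natAbs_pos.mpr h0
  · intro u hu
    rw [← Int.natAbs_dvd, Int.natCast_dvd_natCast, hP]
    exact ((dvd_mul_right _ _).trans (dvd_prod_of_mem
      (fun u : ℤ × ℤ => (nm u).natAbs * (u.2).natAbs) hu)).mul_right _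
  · intro u hu
    rw [← Int.natAbs_dvd, Int.natCast_dvd_natCast, hP]
    exact ((dvd_mul_left _ _).trans (dvd_prod_of_mem
      (fun u : ℤ × ℤ => (nm u).natAbs * (u.2).natAbs) hu)).mul_right _
  · intro u hu v hv h0
    rw [← Int.natAbs_dvd, Int.natCast_dvd_natCast, hP]
    refine Dvd.dvd.mul_left ?_ _
    have h1 : (dt u v).natAbs ∣ ∏ v ∈ V, (if dt u v = 0 then 1 else (dt u v).natAbs) := by
      have h2 := dvd_prod_of_mem (fun v : ℤ × ℤ => if dt u v = 0 then 1 else (dt u v).natAbs) hv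
      simp only [h0, if_false] at h2
      exact h2
    exact h1.trans (dvd_prod_of_mem
      (fun u : ℤ × ℤ => ∏ v ∈ V, (if dt u v = 0 then 1 else (dt u v).natAbs)) hu)

/-- the good pairs for one prime -/
noncomputable def GP (V : Finset (ℤ × ℤ)) (K L r Y : ℕ) : Finset (ℕ × ℕ) := by
  classical exact (PT L r r).filter (fun t => ∀ p ∈ PP K Y, (t.1 % p, t.2 % p) ∉ Bs V L r p)

/-- the number of bases for all primes -/
theorem sum_GP (V : Finset (ℤ × ℤ)) (hVc : 1 ≤ V.card) (L : ℕ) (hL : 0 < L) (hV2 : ∀ u ∈ V, u.2 ∣ (L : ℤ)) :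
    ∃ C : ℕ, 1 ≤ C ∧ ∃ c : ℝ, 0 < c ∧ ∀ᶠ X : ℕ in Filter.atTop,
      ∃ Rs : Finset ℕ, (∀ r ∈ Rs, r.Prime ∧ r ≡ 1 [MOD L] ∧ r ≤ X ∧ ¬ r ∣ L) ∧
        c * (X : ℝ) ^ 2 / Real.log X ^ (8 * (2 * V.card) + 2) ≤
          ((∑ r ∈ Rs, (GP V (2 * V.card) L r (2 ^ (Nat.log 2 X / (2 * C)))).card : ℕ) : ℝ) := by
  classical
  set K := 2 * V.card with hK
  have hK1 : 1 ≤ K := by omega
  obtain ⟨C0, hC0⟩ := sieve_pairs K hK1
  obtain ⟨c, x₀, hc, hx₀, hpi⟩ := Pool.Agent.JB.pi_ap L hL 1 (Nat.coprime_one_left L)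
  refine ⟨C0 + 1, by omega, (c ^ 2 / 16) * (Real.exp (-(8 * K)) / 2 ^ (8 * K)), by positivity, ?_⟩
  -- eventual conditions
  have ev1 : ∀ᶠ X : ℕ in Filter.atTop, Real.log X ≤ (c / 2) * (X : ℝ) ^ (1 / 2 : ℝ) := by
    have h1 := (isLittleO_log_rpow_atTop (by norm_num : (0 : ℝ) < 1 / 2)).bound (show (0 : ℝ) < c / 2 by positivity)
    have h2 := tendsto_natCast_atTop_atTop.eventually h1
    filter_upwards [h2, Filter.eventually_ge_atTop 1] with X h3 h4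
    rw [Real.norm_eq_abs, Real.norm_eq_abs] at h3
    refine (le_abs_self _).trans (h3.trans (le_of_eq ?_))
    rw [abs_of_nonneg (by positivity)]
  have ev2 : ∀ᶠ X : ℕ in Filter.atTop, (L : ℝ) < (c / 2) * X / Real.log X := by
    have h1 := (isLittleO_log_rpow_atTop (by norm_num : (0 : ℝ) < 1)).bound
      (show (0 : ℝ) < (c / 2) / (L + 1) by positivity)
    have h2 := tendsto_natCast_atTop_atTop.eventually h1
    filter_upwards [h2, Filter.eventually_ge_atTop 3] with X h3 h4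
    rw [Real.norm_eq_abs, Real.norm_eq_abs, Real.rpow_one] at h3
    have hX : (3 : ℝ) ≤ X := by exact_mod_cast h4
    have hl : 0 < Real.log X := Real.log_pos (by linarith)
    rw [abs_of_pos hl, abs_of_pos (by linarith)] at h3
    rw [lt_div_iff₀ hl]
    have hL0 : (0 : ℝ) ≤ L := Nat.cast_nonneg _
    have h5 : (L + 1 : ℝ) * Real.log X ≤ (c / 2) * X := by
      have h6 := mul_le_mul_of_nonneg_left h3 (show (0 : ℝ) ≤ L + 1 by linarith)
      refine h6.trans (le_of_eq ?_)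
      field_simp
    nlinarith
  filter_upwards [ev1, ev2, Filter.eventually_ge_atTop x₀, Filter.eventually_ge_atTop (2 ^ (2 * (C0 + 1))),
    Filter.eventually_ge_atTop 3] with X h1 h2 h3 h4 h5
  have hX : (3 : ℝ) ≤ X := by exact_mod_cast h5
  have hX0 : (0 : ℝ) < X := by linarith
  have hl1 : 1 ≤ Real.log X := by
    rw [Real.le_log_iff_exp_le hX0]
    have := Real.exp_one_lt_d9
    linarith
  have hl : 0 < Real.log X := by linarith
  set T : ℝ := (c / 2) * X / Real.log X with hT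
  have hT0 : 0 < T := by positivity
  set m := Nat.log 2 X / (2 * (C0 + 1)) with hm
  have hX1 : X ≠ 0 := by omega
  have hm1 : 1 ≤ m := by
    rw [hm, Nat.le_div_iff_mul_le (by omega), one_mul]
    exact Nat.le_log_of_pow_le (by norm_num) h4
  have hYle : ((2 ^ m) ^ (C0 + 1)) ^ 2 ≤ X := by
    rw [← pow_mul, ← pow_mul]
    refine (Nat.pow_le_pow_right (by norm_num) ?_).trans (Nat.pow_log_le_self 2 hX1)
    have := Nat.div_mul_le_self (Nat.log 2 X) (2 * (C0 + 1))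
    rw [← hm] at this
    calc m * ((C0 + 1) * 2) = m * (2 * (C0 + 1)) := by ring
      _ ≤ _ := this
  have hYT : (((2 ^ m) ^ (C0 + 1) : ℕ) : ℝ) ≤ T := by
    have e1 : ((((2 ^ m) ^ (C0 + 1)) : ℕ) : ℝ) ≤ (X : ℝ) ^ (1 / 2 : ℝ) := by
      rw [← Real.sqrt_eq_rpow]
      apply Real.le_sqrt_of_sq_le
      exact_mod_cast hYle
    refine e1.trans ?_
    rw [hT, le_div_iff₀ hl]
    calc (X : ℝ) ^ (1 / 2 : ℝ) * Real.log X ≤ (X : ℝ) ^ (1 / 2 : ℝ) * ((c / 2) * (X : ℝ) ^ (1 / 2 : ℝ)) :=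
          mul_le_mul_of_nonneg_left h1 (by positivity)
      _ = (c / 2) * ((X : ℝ) ^ (1 / 2 : ℝ) * (X : ℝ) ^ (1 / 2 : ℝ)) := by ring
      _ = (c / 2) * X := by
        rw [← Real.rpow_add hX0]
        norm_num
  set Ra := ((range (X + 1)).filter Nat.Prime).filter (fun p => p ≡ 1 [MOD L]) with hRa
  set Rs := Ra.filter (fun p : ℕ => T < (p : ℝ)) with hRs
  have hpi' := hpi X h3
  have hcard : T ≤ (Rs.card : ℝ) := by
    have e1 : Ra.card ≤ Rs.card + ⌊T⌋₊ := by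
      rw [hRs, ← card_filter_add_card_filter_not (s := Ra) (fun p : ℕ => T < (p : ℝ))]
      refine Nat.add_le_add_left ?_ _
      have e2 : Ra.filter (fun p : ℕ => ¬ T < (p : ℝ)) ⊆ Icc 1 ⌊T⌋₊ := by
        intro p hp
        rw [hRa, mem_filter, mem_filter, mem_filter] at hp
        obtain ⟨⟨⟨-, hp1⟩, -⟩, hp2⟩ := hp
        rw [mem_Icc]
        exact ⟨hp1.pos, Nat.le_floor (not_lt.mp hp2)⟩
      exact (card_le_card e2).trans (by rw [Nat.card_Icc]; omega)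
    have e3 : (Ra.card : ℝ) ≤ Rs.card + T := by
      have e4 : (Ra.card : ℝ) ≤ Rs.card + (⌊T⌋₊ : ℝ) := by exact_mod_cast e1
      have e5 := Nat.floor_le hT0.le
      linarith
    have e6 : c * X / Real.log X = 2 * T := by rw [hT]; ring
    rw [e6] at hpi'
    linarith
  have hTL : (L : ℝ) < T := h2
  have hRsp : ∀ r ∈ Rs, r.Prime ∧ r ≡ 1 [MOD L] ∧ r ≤ X ∧ ¬ r ∣ L := by
    intro r hr
    rw [hRs, mem_filter, hRa, mem_filter, mem_filter, mem_range] at hr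
    obtain ⟨⟨⟨e1, e2⟩, e3⟩, e4⟩ := hr
    refine ⟨e2, e3, by omega, ?_⟩
    intro hdvd
    have e5 := Nat.le_of_dvd hL hdvd
    have e6 : (r : ℝ) ≤ L := by exact_mod_cast e5
    linarith
  refine ⟨Rs, hRsp, ?_⟩
  set Pr : ℝ := ∏ p ∈ PP K (2 ^ m), (1 - (K : ℝ) / p) with hPr
  have hPrl := Pool.Agent.TwQ.prod_log_lower K hK1 m hm1
  have hmr : (0 : ℝ) < m := by exact_mod_cast hm1
  have hm2 : (m : ℝ) ≤ 2 * Real.log X := by
    have e1 : m ≤ Nat.log 2 X := Nat.div_le_self _ _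
    have e2 : (2 : ℝ) ^ m ≤ X := by
      have : 2 ^ m ≤ X := (Nat.pow_le_pow_right (by norm_num) e1).trans (Nat.pow_log_le_self 2 hX1)
      exact_mod_cast this
    have e3 : Real.log ((2 : ℝ) ^ m) ≤ Real.log X := Real.log_le_log (by positivity) e2
    rw [Real.log_pow] at e3
    have e4 : (1 : ℝ) / 2 ≤ Real.log 2 := by
      have := Real.log_two_gt_d9
      linarith
    nlinarith
  have hPr1 : Real.exp (-(8 * K)) / (2 * Real.log X) ^ (8 * K) ≤ Pr := by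
    refine le_trans ?_ hPrl
    apply div_le_div_of_nonneg_left (by positivity) (by positivity)
    exact pow_le_pow_left₀ hmr.le hm2 _
  have hPr0 : 0 ≤ Pr := le_trans (by positivity) hPr1
  have hone : ∀ r ∈ Rs, T / 4 * Pr ≤ ((GP V K L r (2 ^ m)).card : ℝ) := by
    intro r hr
    obtain ⟨q1, q2, q3, q4⟩ := hRsp r hr
    have hrT : T < (r : ℝ) := by
      rw [hRs, mem_filter] at hr
      exact hr.2
    have hY2 : 2 ≤ 2 ^ m := by
      calc 2 = 2 ^ 1 := (pow_one 2).symm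
        _ ≤ 2 ^ m := Nat.pow_le_pow_right (by norm_num) hm1
    have e1 : (2 ^ m) ^ C0 ≤ r := by
      have e2 : (((2 ^ m) ^ (C0 + 1) : ℕ) : ℝ) ≤ r := hYT.trans hrT.le
      have e3 : (2 ^ m) ^ (C0 + 1) ≤ r := by exact_mod_cast e2
      refine le_trans ?_ e3
      exact Nat.pow_le_pow_right (by positivity) (by omega)
    have e4 := hC0 (2 ^ m) r r L hY2 e1 q1 q4 le_rfl (by omega) (fun p => Bs V L r p) (by
      intro p hp
      have hp' := (mem_PP.mp hp).2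
      have e5 := Bs_props V L r p hp' hV2
      exact e5)
    have hr0 : (0 : ℝ) < r := by exact_mod_cast q1.pos
    have e6 : (r : ℝ) ^ 2 / (4 * r) = r / 4 := by field_simp
    rw [e6] at e4
    have e7 : T / 4 * Pr ≤ (r : ℝ) / 4 * Pr := by
      apply mul_le_mul_of_nonneg_right _ hPr0
      linarith
    refine e7.trans (e4.trans (le_of_eq ?_))
    unfold GP
    congr 1
  have hsum : (Rs.card : ℝ) * (T / 4 * Pr) ≤ ((∑ r ∈ Rs, (GP V K L r (2 ^ m)).card : ℕ) : ℝ) := by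
    push_cast
    rw [← nsmul_eq_mul]
    exact card_nsmul_le_sum _ _ _ hone
  refine le_trans ?_ hsum
  have e1 : T * (T / 4 * Pr) ≤ (Rs.card : ℝ) * (T / 4 * Pr) :=
    mul_le_mul_of_nonneg_right hcard (by positivity)
  refine le_trans ?_ e1
  have e2 : T * (T / 4 * (Real.exp (-(8 * K)) / (2 * Real.log X) ^ (8 * K))) ≤ T * (T / 4 * Pr) := by
    apply mul_le_mul_of_nonneg_left _ hT0.le
    exact mul_le_mul_of_nonneg_left hPr1 (by positivity)
  refine le_trans (le_of_eq ?_) e2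
  rw [hT, mul_pow, pow_add]
  field_simp
  ring

theorem count_log {q : ℕ} {A : Set (ZMod q)} {Q : ℕ} (h : CertA q A Q) : ∃ C R : ℕ, ∃ c : ℝ, 0 < c ∧
    ∀ᶠ X : ℕ in Filter.atTop, c * (X : ℝ) ^ 2 / Real.log X ^ R ≤
      Set.ncard {m : ℕ | m ≤ C * X ^ 2 ∧ Good q A Q R m} := by
  classical
  obtain ⟨V, hV⟩ := h
  have hVne : V.Nonempty := by
    obtain ⟨u, hu, -⟩ := hV.2 (fun _ => 0)
    exact ⟨u, hu⟩
  have hVc : 1 ≤ V.card := hVne.card_pos
  obtain ⟨P, hP, hP1, hP2, hP3⟩ := exists_P hV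
  set K := 2 * V.card with hK
  set F := (2 * K).factorial with hF
  have hF0 : 0 < F := Nat.factorial_pos _
  set L := F * P ^ 2 with hL
  have hL0 : 0 < L := by positivity
  have hPL : (P : ℤ) ∣ L := by
    rw [hL]; push_cast; exact ⟨F * P, by ring⟩
  have hFL : F ∣ L := dvd_mul_right _ _
  have hLp : ∀ p, p.Prime → p ≤ 2 * K → p ∣ L := fun p hp hpK =>
    (Nat.dvd_factorial hp.pos hpK).trans hFL
  have h2F : 2 ∣ F := Nat.dvd_factorial (by norm_num) (by omega)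
  obtain ⟨C, hC1, c, hc, hX⟩ := sum_GP V hVc L hL0 (fun u hu => (hP2 u hu).trans hPL)
  set E := 8 * C + 1 with hE
  set R := 2 * (cardFactors P + E) with hR
  set R' := R + P ^ 2 + E + (8 * K + 2) with hR'
  set F1 : ℕ := 2 ^ R * (4 * P + 1) ^ 2 with hF1
  set F2 : ℕ := V.card * (V.card * 2) with hF2
  have hF1pos : 0 < F1 := by positivity
  have hF2pos : 0 < F2 := by positivity
  refine ⟨4 * L ^ 4 * P, R', c / (F1 * F2), by positivity, ?_⟩
  filter_upwards [hX, Filter.eventually_ge_atTop ((4 * L ^ 4 * P + 2) ^ (4 * C)), Filter.eventually_ge_atTop 3]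
    with X h1 h2 h3
  obtain ⟨Rs, hRs, hsum⟩ := h1
  have hXr : (3 : ℝ) ≤ X := by exact_mod_cast h3
  have hX0 : (0 : ℝ) < X := by linarith
  have hX1 : X ≠ 0 := by omega
  have hl1 : 1 ≤ Real.log X := by
    rw [Real.le_log_iff_exp_le hX0]
    have := Real.exp_one_lt_d9
    linarith
  set m := Nat.log 2 X / (2 * C) with hm
  set Y := 2 ^ m with hY
  -- `X ≤ Y ^ (4 C)`
  have hXY0 : X < (2 ^ (m + 1)) ^ (2 * C) := by
    rw [← pow_mul]
    refine (Nat.lt_pow_succ_log_self (by norm_num) X).trans_le (Nat.pow_le_pow_right (by norm_num) ?_)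
    have h4 := Nat.lt_div_mul_add (a := Nat.log 2 X) (b := 2 * C) (by omega)
    rw [← hm] at h4
    have h5 : (m + 1) * (2 * C) = m * (2 * C) + 2 * C := by ring
    omega
  have hm1 : 1 ≤ m := by
    by_contra hcon
    have hm0 : m = 0 := Nat.lt_one_iff.mp (not_le.mp hcon)
    rw [hm0] at hXY0
    have h4 : (4 * L ^ 4 * P + 2) ^ (4 * C) < (2 ^ (0 + 1)) ^ (2 * C) := lt_of_le_of_lt h2 hXY0
    have h5 : (2 ^ (0 + 1)) ^ (2 * C) ≤ (4 * L ^ 4 * P + 2) ^ (4 * C) := by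
      calc (2 ^ (0 + 1)) ^ (2 * C) = 2 ^ (2 * C) := by norm_num
        _ ≤ 2 ^ (4 * C) := Nat.pow_le_pow_right (by norm_num) (by omega)
        _ ≤ (4 * L ^ 4 * P + 2) ^ (4 * C) := Nat.pow_le_pow_left (by omega) _
    omega
  have hY2 : 2 ≤ Y := by
    calc 2 = 2 ^ 1 := (pow_one 2).symm
      _ ≤ 2 ^ m := Nat.pow_le_pow_right (by norm_num) hm1
  have hXY : X < Y ^ (4 * C) := by
    refine hXY0.trans_le ?_
    calc (2 ^ (m + 1)) ^ (2 * C) = (Y * 2) ^ (2 * C) := by rw [pow_succ]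
      _ ≤ (Y * Y) ^ (2 * C) := Nat.pow_le_pow_left (Nat.mul_le_mul_left _ hY2) _
      _ = Y ^ (4 * C) := by rw [← pow_two, ← pow_mul]; congr 1; ring
  have hYL : 4 * L ^ 4 * P ≤ Y := by
    have h4 : (4 * L ^ 4 * P + 2) ^ (4 * C) < Y ^ (4 * C) := lt_of_le_of_lt h2 hXY
    have h5 := lt_of_pow_lt_pow_left₀ (4 * C) (by omega) h4
    omega
  set Bd := 4 * L ^ 4 * P * X ^ 2 with hBd
  have hBdE : Bd ≤ Y ^ E := by
    calc Bd ≤ Y * (Y ^ (4 * C)) ^ 2 := Nat.mul_le_mul hYL (Nat.pow_le_pow_left hXY.le 2)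
      _ = Y ^ E := by rw [hE, ← pow_mul, ← pow_succ']; congr 1; ring
  -- the bases
  set S : Finset (Σ _ : ℕ, ℕ × ℕ) := Rs.sigma (fun r => GP V K L r Y) with hS
  have hScard : S.card = ∑ r ∈ Rs, (GP V K L r Y).card := card_sigma _ _
  have hmem : ∀ x ∈ S, x.1 ∈ Rs ∧ x.2.1 < x.1 ∧ x.2.2 < x.1 ∧ x.1 ∣ L ^ 2 * (x.2.1 * x.2.2) + 1 ∧
      ∀ p ∈ PP K Y, (x.2.1 % p, x.2.2 % p) ∉ Bs V L x.1 p := by
    intro x hx
    rw [hS, mem_sigma] at hx
    obtain ⟨h4, h5⟩ := hx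
    unfold GP at h5
    rw [mem_filter, mem_PT] at h5
    exact ⟨h4, h5.1.1, h5.1.2.1, h5.1.2.2, h5.2⟩
  set f : (Σ _ : ℕ, ℕ × ℕ) → (ℤ × ℤ) × (ℤ × ℤ) := fun x => (bz L x.1 x.2.1, bw L x.1 x.2.1 x.2.2) with hf
  have hfinj : Set.InjOn f S := by
    rintro ⟨r, b, c⟩ hx ⟨r', b', c'⟩ hx' he
    have hLz : (L : ℤ) ≠ 0 := by exact_mod_cast hL0.ne'
    simp only [hf, bz, bw, Prod.mk.injEq] at he
    obtain ⟨⟨e1, e2⟩, e3, -⟩ := he
    have e1' : r = r' := by exact_mod_cast e1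
    have e2' : b = b' := by exact_mod_cast mul_left_cancel₀ hLz e2
    have e3' : c = c' := by exact_mod_cast mul_left_cancel₀ hLz e3
    subst e1' e2' e3'
    rfl
  have hone : ∀ x ∈ S, ∃ u v : ℤ × ℤ, ∃ n : ℤ, OneB q A Q V P Y Bd R (f x).1 (f x).2 u v n := by
    intro x hx
    obtain ⟨g1, g2, g3, g4, g5⟩ := hmem x hx
    obtain ⟨k1, k2, k3, k4⟩ := hRs x.1 g1
    obtain ⟨u, hu, v, hv, n, o1, o2, o3, o4, o5, o6, o7, o8⟩ :=
      one_base hV F P L hL hP hF0 h2F hP1 hP3 (bz L x.1 x.2.1) (bw L x.1 x.2.1 x.2.2)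
        (dt_base L _ _ _ g4) (bz_one _ k2) (bz_two _ _ _) (bw_one _ _ _ _) (bw_two _ _ k2 g4) Y Bd E hY2
        (by
          intro s hs
          have h4 := nm_base_le L x.1 x.2.1 x.2.2 hL0 k1.pos g2 g3 g4 s
          refine h4.trans ?_
          have h5 : nm s ≤ (P : ℤ) := Int.le_of_dvd (by exact_mod_cast hP) (hP1 s hs)
          have h6 : (x.1 : ℤ) ^ 2 ≤ (X : ℤ) ^ 2 := by
            apply pow_le_pow_left₀ (Int.natCast_nonneg _)
            exact_mod_cast k3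
          rw [hBd]
          push_cast
          have h7 := nm_nonneg s
          have h8 : (4 : ℤ) * (L : ℤ) ^ 4 * nm s ≤ 4 * (L : ℤ) ^ 4 * P :=
            mul_le_mul_of_nonneg_left h5 (by positivity)
          exact mul_le_mul h8 h6 (sq_nonneg _) (by positivity))
        hBdE (rough_of V K L x.1 Y hLp x.2.1 x.2.2 g4 g5)
    exact ⟨u, v, n, hu, hv, o1, o2, o3, o4, o5, o6, o7, o8⟩
  have hmain := count_bases (q := q) (A := A) (Q := Q) (V := V) (P := P) (Y := Y) (Bd := Bd) (R := R) (E := E)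
    (R' := R') hP hP3 hBdE (by omega) (by omega) (by omega) (by omega) S f hfinj
    (fun x hx => dt_base L _ _ _ (hmem x hx).2.2.2.1) hone
  have hmain' : ((∑ r ∈ Rs, (GP V K L r Y).card : ℕ) : ℝ) ≤
      F1 * (F2 * (Set.ncard {m : ℕ | m ≤ Bd ∧ Good q A Q R' m} : ℝ)) := by
    rw [← hScard]
    exact_mod_cast hmain
  have hF1r : (0 : ℝ) < F1 := by exact_mod_cast hF1pos
  have hF2r : (0 : ℝ) < F2 := by exact_mod_cast hF2pos
  have hlog : Real.log X ^ (8 * K + 2) ≤ Real.log X ^ R' := pow_le_pow_right₀ hl1 (by omega)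
  have hlog0 : 0 < Real.log X ^ (8 * K + 2) := by positivity
  calc c / (F1 * F2) * (X : ℝ) ^ 2 / Real.log X ^ R'
      ≤ c / (F1 * F2) * (X : ℝ) ^ 2 / Real.log X ^ (8 * K + 2) :=
        div_le_div_of_nonneg_left (by positivity) hlog0 hlog
    _ = (c * (X : ℝ) ^ 2 / Real.log X ^ (8 * K + 2)) / (F1 * F2) := by ring
    _ ≤ (F1 * (F2 * (Set.ncard {m : ℕ | m ≤ Bd ∧ Good q A Q R' m} : ℝ))) / (F1 * F2) := by
        apply div_le_div_of_nonneg_right (hsum.trans hmain') (by positivity)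
    _ = (Set.ncard {m : ℕ | m ≤ 4 * L ^ 4 * P * X ^ 2 ∧ Good q A Q R' m} : ℝ) := by
        rw [hBd]
        field_simp

theorem almost_prime_log {q : ℕ} {A : Set (ZMod q)} {P0 : ℕ} (h : CertA q A P0.factorial) :
    ∃ R : ℕ, ∀ᶠ N : ℕ in Filter.atTop, √(N : ℝ) / Real.log N ^ R ≤
      Set.ncard {k : ℕ | k ≤ N ∧ (∃ m : ℕ, Even m ∧ k = m ^ 2 + 1) ∧
        (∀ p : ℕ, p.Prime → p ∣ k → P0 < p) ∧ cardFactors k ≤ R ∧
        ((cardFactors k : ℕ) : ZMod q) ∈ A ∧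
        ∃ s r : ℕ, k = s * r ∧ s ≤ R ∧ ∀ p : ℕ, p.Prime → p ∣ r → k < p ^ R} := by
  obtain ⟨C, R, c, hc, hX⟩ := count_log h
  have hmono : ∀ m, Good q A P0.factorial R m → Good q A P0.factorial (R + 1) m := by
    rintro m ⟨h1, h2, h3, s, r, h4, h5, h6, h7⟩
    refine ⟨h1, by omega, h3, s, r, h4, by omega, h6, fun p hp hpr => (h7 p hp hpr).trans_le ?_⟩
    exact Nat.pow_le_pow_right hp.pos (by omega)
  have h1 := convert_log (fun m => Good q A P0.factorial R m) C R c hc hX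
  have h2 : ∀ᶠ N : ℕ in Filter.atTop, √(N : ℝ) / Real.log N ^ (R + 1) ≤
      Set.ncard {k : ℕ | k ≤ N ∧ ∃ m : ℕ, k = m ^ 2 + 1 ∧ Good q A P0.factorial (R + 1) m} := by
    filter_upwards [h1] with N hN
    refine hN.trans (Nat.cast_le.mpr (Set.ncard_le_ncard ?_ ((Set.finite_Iic N).subset fun k hk => hk.1)))
    rintro k ⟨hk, m, hm, hg⟩
    exact ⟨hk, m, hm, hmono m hg⟩
  exact rough_log h2

end Pool.Agent.OmKl
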