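import Pool.Agent.Lib_MP_f1a94e_kl.Kl6

/-!
# The bases attached to the pairs `(b, c)`
-/

set_option autoImplicit false

namespace Pool.Agent.OmKl

open Finset ArithmeticFunction Pool.Agent.OmAP

theorem mem_PT {L r M : ℕ} {t : ℕ × ℕ} : t ∈ PT L r M ↔ t.1 < M ∧ t.2 < M ∧ r ∣ L ^ 2 * (t.1 * t.2) + 1 := by
  unfold PT
  rw [mem_filter, mem_product, mem_range, mem_range, and_assoc]

/-- the second vector of the basis -/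
def w2 (L r b c : ℕ) : ℕ := (L ^ 2 * (b * c) + 1) / r

/-- the first vector -/
def bz (L r b : ℕ) : ℤ × ℤ := ((r : ℤ), (L : ℤ) * b)

/-- the second vector -/
def bw (L r b c : ℕ) : ℤ × ℤ := ((L : ℤ) * c, (w2 L r b c : ℤ))

theorem w2_eq (L r b c : ℕ) (hd : r ∣ L ^ 2 * (b * c) + 1) : L ^ 2 * (b * c) + 1 = r * w2 L r b c := by
  unfold w2
  rw [Nat.mul_div_cancel' hd]

theorem w2_cast (L r b c : ℕ) (hd : r ∣ L ^ 2 * (b * c) + 1) :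
    (L : ℤ) ^ 2 * (b * c) + 1 = r * (w2 L r b c : ℤ) := by
  exact_mod_cast w2_eq L r b c hd

theorem dt_base (L r b c : ℕ) (hd : r ∣ L ^ 2 * (b * c) + 1) : dt (bz L r b) (bw L r b c) = 1 := by
  have h := w2_cast L r b c hd
  simp only [dt, bz, bw]
  linear_combination -h

theorem bz_one {L r : ℕ} (b : ℕ) (h : r ≡ 1 [MOD L]) : (L : ℤ) ∣ (bz L r b).1 - 1 := by
  have h1 := (Nat.modEq_iff_dvd.mp h.symm)
  push_cast at h1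
  exact h1

theorem bz_two (L r b : ℕ) : (L : ℤ) ∣ (bz L r b).2 := dvd_mul_right _ _

theorem bw_one (L r b c : ℕ) : (L : ℤ) ∣ (bw L r b c).1 := dvd_mul_right _ _

theorem bw_two {L r : ℕ} (b c : ℕ) (h : r ≡ 1 [MOD L]) (hd : r ∣ L ^ 2 * (b * c) + 1) :
    (L : ℤ) ∣ (bw L r b c).2 - 1 := by
  obtain ⟨k, hk⟩ := bz_one b h
  have h1 := w2_cast L r b c hd
  simp only [bz] at hk
  refine ⟨L * (b * c) - k * (w2 L r b c : ℤ), ?_⟩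
  simp only [bw]
  linear_combination -h1 - (w2 L r b c : ℤ) * hk

theorem w2_le (L r b c : ℕ) (hL : 1 ≤ L) (hr : 1 ≤ r) (hb : b < r) (hc : c < r) (hd : r ∣ L ^ 2 * (b * c) + 1) :
    w2 L r b c ≤ L ^ 2 * r := by
  have h1 := w2_eq L r b c hd
  have h2 : b * c ≤ (r - 1) * (r - 1) := Nat.mul_le_mul (by omega) (by omega)
  have h3 : (r - 1) * (r - 1) + 1 ≤ r * r := by
    obtain ⟨k, rfl⟩ : ∃ k, r = k + 1 := ⟨r - 1, by omega⟩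
    simp only [Nat.add_sub_cancel]
    nlinarith
  have hL2 : 1 ≤ L ^ 2 := Nat.one_le_pow _ _ hL
  have h4 : r * w2 L r b c ≤ r * (L ^ 2 * r) := by
    rw [← h1]
    calc L ^ 2 * (b * c) + 1 ≤ L ^ 2 * (b * c) + L ^ 2 * 1 := by omega
      _ = L ^ 2 * (b * c + 1) := by ring
      _ ≤ L ^ 2 * (r * r) := Nat.mul_le_mul_left _ (by omega)
      _ = r * (L ^ 2 * r) := by ring
  exact Nat.le_of_mul_le_mul_left h4 hr

theorem nm_base_le (L r b c : ℕ) (hL : 1 ≤ L) (hr : 1 ≤ r) (hb : b < r) (hc : c < r)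
    (hd : r ∣ L ^ 2 * (b * c) + 1) (u : ℤ × ℤ) :
    nm (lin u (bz L r b) (bw L r b c)) ≤ 4 * (L : ℤ) ^ 4 * nm u * (r : ℤ) ^ 2 := by
  have hw := w2_le L r b c hL hr hb hc hd
  have hw' : (w2 L r b c : ℤ) ≤ (L : ℤ) ^ 2 * r := by exact_mod_cast hw
  have hw0 : (0 : ℤ) ≤ w2 L r b c := Int.natCast_nonneg _
  have hb' : (b : ℤ) ≤ r := by exact_mod_cast hb.le
  have hc' : (c : ℤ) ≤ r := by exact_mod_cast hc.le
  have hb0 : (0 : ℤ) ≤ b := Int.natCast_nonneg _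
  have hc0 : (0 : ℤ) ≤ c := Int.natCast_nonneg _
  have hL' : (1 : ℤ) ≤ L := by exact_mod_cast hL
  have hL2 : (1 : ℤ) ≤ (L : ℤ) ^ 2 := one_le_pow₀ hL'
  have hL4 : (L : ℤ) ^ 2 ≤ (L : ℤ) ^ 4 := by
    calc (L : ℤ) ^ 2 = (L : ℤ) ^ 2 * 1 := (mul_one _).symm
      _ ≤ (L : ℤ) ^ 2 * (L : ℤ) ^ 2 := mul_le_mul_of_nonneg_left hL2 (by positivity)
      _ = (L : ℤ) ^ 4 := by ring
  have hr0 : (0 : ℤ) ≤ (r : ℤ) ^ 2 := sq_nonneg _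
  have hz : nm (bz L r b) ≤ 2 * ((L : ℤ) ^ 4 * (r : ℤ) ^ 2) := by
    have h1 : (b : ℤ) ^ 2 ≤ (r : ℤ) ^ 2 := pow_le_pow_left₀ hb0 hb' 2
    have h2 : (L : ℤ) ^ 2 * (b : ℤ) ^ 2 ≤ (L : ℤ) ^ 4 * (r : ℤ) ^ 2 :=
      mul_le_mul hL4 h1 (sq_nonneg _) (by positivity)
    have h3 : (r : ℤ) ^ 2 ≤ (L : ℤ) ^ 4 * (r : ℤ) ^ 2 := by
      calc (r : ℤ) ^ 2 = 1 * (r : ℤ) ^ 2 := (one_mul _).symm
        _ ≤ (L : ℤ) ^ 4 * (r : ℤ) ^ 2 := mul_le_mul_of_nonneg_right (hL2.trans hL4) hr0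
    simp only [nm, bz]
    have h4 : (r : ℤ) ^ 2 + ((L : ℤ) * b) ^ 2 = (r : ℤ) ^ 2 + (L : ℤ) ^ 2 * (b : ℤ) ^ 2 := by ring
    rw [h4]
    linarith
  have hww : nm (bw L r b c) ≤ 2 * ((L : ℤ) ^ 4 * (r : ℤ) ^ 2) := by
    have h1 : (c : ℤ) ^ 2 ≤ (r : ℤ) ^ 2 := pow_le_pow_left₀ hc0 hc' 2
    have h2 : (L : ℤ) ^ 2 * (c : ℤ) ^ 2 ≤ (L : ℤ) ^ 4 * (r : ℤ) ^ 2 :=
      mul_le_mul hL4 h1 (sq_nonneg _) (by positivity)
    have h3 : (w2 L r b c : ℤ) ^ 2 ≤ ((L : ℤ) ^ 2 * r) ^ 2 := pow_le_pow_left₀ hw0 hw' 2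
    have h4 : ((L : ℤ) ^ 2 * r) ^ 2 = (L : ℤ) ^ 4 * (r : ℤ) ^ 2 := by ring
    simp only [nm, bw]
    have h5 : ((L : ℤ) * c) ^ 2 = (L : ℤ) ^ 2 * (c : ℤ) ^ 2 := by ring
    rw [h5]
    linarith
  have h13 := nm_add_le (u.1 * (bz L r b).1, u.1 * (bz L r b).2) (u.2 * (bw L r b c).1, u.2 * (bw L r b c).2)
  have h14 : nm (u.1 * (bz L r b).1, u.1 * (bz L r b).2) = u.1 ^ 2 * nm (bz L r b) := by simp only [nm]; ring
  have h15 : nm (u.2 * (bw L r b c).1, u.2 * (bw L r b c).2) = u.2 ^ 2 * nm (bw L r b c) := by simp only [nm]; ring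
  rw [h14, h15] at h13
  have h16 : u.1 ^ 2 * nm (bz L r b) ≤ u.1 ^ 2 * (2 * ((L : ℤ) ^ 4 * (r : ℤ) ^ 2)) :=
    mul_le_mul_of_nonneg_left hz (sq_nonneg _)
  have h17 : u.2 ^ 2 * nm (bw L r b c) ≤ u.2 ^ 2 * (2 * ((L : ℤ) ^ 4 * (r : ℤ) ^ 2)) :=
    mul_le_mul_of_nonneg_left hww (sq_nonneg _)
  have h18 : 4 * (L : ℤ) ^ 4 * nm u * (r : ℤ) ^ 2 =
      2 * (u.1 ^ 2 * (2 * ((L : ℤ) ^ 4 * (r : ℤ) ^ 2))) + 2 * (u.2 ^ 2 * (2 * ((L : ℤ) ^ 4 * (r : ℤ) ^ 2))) := by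
    simp only [nm]; ring
  rw [h18]
  have h19 : nm (lin u (bz L r b) (bw L r b c)) ≤
      2 * (u.1 ^ 2 * nm (bz L r b)) + 2 * (u.2 ^ 2 * nm (bw L r b c)) := h13
  linarith

/-- the forbidden classes of pairs -/
noncomputable def Bs (V : Finset (ℤ × ℤ)) (L r p : ℕ) : Finset (ℕ × ℕ) :=
  by classical exact if p ∣ L then ∅ else V.biUnion fun u =>
    (range p ×ˢ range p).filter (fun t => (p : ℤ) ∣ locF u L r t.1 t.2)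

theorem Bs_props (V : Finset (ℤ × ℤ)) (L r p : ℕ) (hp : p.Prime) (hV : ∀ u ∈ V, u.2 ∣ (L : ℤ)) :
    Bs V L r p ⊆ range p ×ˢ range p ∧ (Bs V L r p).card ≤ 2 * V.card * p := by
  classical
  unfold Bs
  by_cases h : p ∣ L
  · rw [if_pos h]
    exact ⟨empty_subset _, by simp⟩
  · rw [if_neg h]
    constructor
    · intro t ht
      obtain ⟨u, _, hu⟩ := mem_biUnion.mp ht
      exact (mem_filter.mp hu).1
    · refine (card_biUnion_le_card_mul V _ (2 * p) fun u hu => loc_card u L r p hp h (hV u hu)).trans ?_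
      exact le_of_eq (by ring)

/-- pairs outside the forbidden classes give rough norms -/
theorem rough_of (V : Finset (ℤ × ℤ)) (K L r Y : ℕ) (hLp : ∀ p, p.Prime → p ≤ 2 * K → p ∣ L) (b c : ℕ)
    (hd : r ∣ L ^ 2 * (b * c) + 1) (h : ∀ p ∈ PP K Y, (b % p, c % p) ∉ Bs V L r p) :
    ∀ s ∈ V, ∀ p : ℕ, p.Prime → p ≤ Y → ¬ p ∣ L → ¬ (p : ℤ) ∣ nm (lin s (bz L r b) (bw L r b c)) := by
  classical
  intro s hs p hp hpY hpL hdiv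
  have hpK : 2 * K < p := by
    by_contra hc
    exact hpL (hLp p hp (by omega))
  have h1 := h p (mem_PP.mpr ⟨⟨hpK, hpY⟩, hp⟩)
  apply h1
  unfold Bs
  rw [if_neg hpL, mem_biUnion]
  refine ⟨s, hs, mem_filter.mpr ⟨mem_product.mpr ⟨mem_range.mpr (Nat.mod_lt _ hp.pos),
    mem_range.mpr (Nat.mod_lt _ hp.pos)⟩, ?_⟩⟩
  rw [← loc_mod, ← loc_nm s L r b c (w2 L r b c) (w2_eq L r b c hd)]
  exact hdiv.mul_left _

end Pool.Agent.OmKl
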