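import Pool.Agent.Lib_MP_f1a94e_kl.Kl

/-!
# The number of solutions of `x y = a` modulo a prime in a box of progressions
-/

set_option autoImplicit false

namespace Pool.Agent.Klo

open Finset

/-- exponential sums over a progression -/
noncomputable def Pg (r : ℕ) [NeZero r] (b s : ZMod r) (m : ℕ) (h : ZMod r) : ℂ :=
  ∑ i ∈ range m, ZMod.stdAddChar (h * (b + s * (i : ZMod r)))

theorem one_sub_std (r : ℕ) [Fact r.Prime] (t : ZMod r) (ht : t ≠ 0) :
    4 * min (t.val : ℝ) (r - t.val) / r ≤ ‖(ZMod.stdAddChar t : ℂ) - 1‖ := by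
  have hr : (0 : ℝ) < r := by exact_mod_cast (Fact.out : r.Prime).pos
  have htv : (t.val : ℝ) < r := by exact_mod_cast ZMod.val_lt t
  have htv0 : (0 : ℝ) < t.val := by
    have : 0 < t.val := Nat.pos_of_ne_zero (fun h => ht ((ZMod.val_eq_zero t).1 h))
    exact_mod_cast this
  have h1 : (ZMod.stdAddChar t : ℂ) = Complex.exp (Complex.I * ((2 * Real.pi * t.val / r : ℝ) : ℂ)) := by
    have h2 : t = (((t.val : ℕ) : ℤ) : ZMod r) := by
      rw [Int.cast_natCast, ZMod.natCast_val, ZMod.cast_id]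
    conv_lhs => rw [h2]
    rw [ZMod.stdAddChar_coe]
    congr 1
    push_cast
    ring
  rw [h1, Complex.norm_exp_I_mul_ofReal_sub_one]
  have h3 : 2 * Real.pi * t.val / r / 2 = Real.pi * t.val / r := by ring
  rw [h3]
  have hpi := Real.pi_pos
  -- lower bound of the sine
  have key : 2 * min (t.val : ℝ) (r - t.val) / r ≤ Real.sin (Real.pi * t.val / r) := by
    rcases le_total (t.val : ℝ) (r - t.val) with h | h
    · rw [min_eq_left h]
      have h4 : Real.pi * t.val / r ≤ Real.pi / 2 := by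
        rw [div_le_iff₀ hr]
        nlinarith
      have h5 := Real.mul_le_sin (by positivity : 0 ≤ Real.pi * t.val / r) h4
      have h6 : 2 / Real.pi * (Real.pi * t.val / r) = 2 * t.val / r := by
        field_simp
      rw [h6] at h5
      exact h5
    · rw [min_eq_right h]
      have h7 : Real.sin (Real.pi * t.val / r) = Real.sin (Real.pi * (r - t.val) / r) := by
        rw [← Real.sin_pi_sub]
        congr 1
        field_simp
      rw [h7]
      have h4 : Real.pi * (r - t.val) / r ≤ Real.pi / 2 := by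
        rw [div_le_iff₀ hr]
        nlinarith
      have h8 : 0 ≤ Real.pi * (r - t.val) / r := by
        have : (0 : ℝ) ≤ r - t.val := by linarith
        positivity
      have h5 := Real.mul_le_sin h8 h4
      have h6 : 2 / Real.pi * (Real.pi * (r - t.val) / r) = 2 * (r - t.val) / r := by
        field_simp
      rw [h6] at h5
      exact h5
  have h9 : 0 ≤ 2 * min (t.val : ℝ) (r - t.val) / r := by
    have : 0 ≤ min (t.val : ℝ) (r - t.val) := le_min htv0.le (by linarith)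
    positivity
  rw [Real.norm_eq_abs, abs_of_nonneg (by linarith)]
  calc 4 * min (t.val : ℝ) (r - t.val) / r = 2 * (2 * min (t.val : ℝ) (r - t.val) / r) := by ring
    _ ≤ _ := mul_le_mul_of_nonneg_left key (by norm_num)

theorem pg_bound (r : ℕ) [Fact r.Prime] (b s : ZMod r) (m : ℕ) (h : ZMod r) (hs : h * s ≠ 0) :
    ‖Pg r b s m h‖ ≤ (r : ℝ) / 2 * (1 / ((h * s).val : ℝ) + 1 / (r - (h * s).val)) := by
  have hr : (0 : ℝ) < r := by exact_mod_cast (Fact.out : r.Prime).pos
  set t := h * s with ht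
  have htv : (t.val : ℝ) < r := by exact_mod_cast ZMod.val_lt t
  have htv0 : (0 : ℝ) < t.val := by
    have : 0 < t.val := Nat.pos_of_ne_zero (fun h => hs ((ZMod.val_eq_zero t).1 h))
    exact_mod_cast this
  have h1 : Pg r b s m h = ZMod.stdAddChar (h * b) * ∑ i ∈ range m, (ZMod.stdAddChar t : ℂ) ^ i := by
    unfold Pg
    rw [mul_sum]
    refine sum_congr rfl fun i _ => ?_
    rw [← AddChar.map_nsmul_eq_pow, ← AddChar.map_add_eq_mul]
    congr 1
    rw [nsmul_eq_mul, ht]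
    ring
  have h0 := one_sub_std r t hs
  have hmin : 0 < min (t.val : ℝ) (r - t.val) := lt_min htv0 (by linarith)
  have hpos : 0 < ‖(ZMod.stdAddChar t : ℂ) - 1‖ := lt_of_lt_of_le (by positivity) h0
  have hne : (ZMod.stdAddChar t : ℂ) ≠ 1 := by
    intro hc
    rw [hc, sub_self, norm_zero] at hpos
    exact lt_irrefl _ hpos
  rw [h1, norm_mul, norm_std, one_mul, geom_sum_eq hne, norm_div]
  have h2 : ‖(ZMod.stdAddChar t : ℂ) ^ m - 1‖ ≤ 2 := by
    refine (norm_sub_le _ _).trans ?_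
    rw [norm_pow, norm_std, one_pow, norm_one]
    norm_num
  calc ‖(ZMod.stdAddChar t : ℂ) ^ m - 1‖ / ‖(ZMod.stdAddChar t : ℂ) - 1‖
      ≤ 2 / (4 * min (t.val : ℝ) (r - t.val) / r) := div_le_div₀ (by norm_num) h2 (by positivity) h0
    _ = (r : ℝ) / 2 * (1 / min (t.val : ℝ) (r - t.val)) := by
        field_simp
        ring
    _ ≤ (r : ℝ) / 2 * (1 / (t.val : ℝ) + 1 / (r - t.val)) := by
        refine mul_le_mul_of_nonneg_left ?_ (by positivity)
        have e1 : 0 ≤ 1 / (t.val : ℝ) := by positivity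
        have e2 : 0 ≤ 1 / ((r : ℝ) - t.val) := by
          have : (0 : ℝ) < r - t.val := by linarith
          positivity
        rcases le_total (t.val : ℝ) (r - t.val) with h | h
        · rw [min_eq_left h]
          linarith
        · rw [min_eq_right h]
          linarith

theorem harm (r : ℕ) (hr : 1 ≤ r) : ∑ t ∈ Ico 1 r, (1 / (t : ℝ) + 1 / (r - t)) ≤ 2 * (1 + Real.log r) := by
  have h1 : ∑ t ∈ Ico 1 r, 1 / (t : ℝ) ≤ 1 + Real.log r := by
    have h2 : ∑ t ∈ Ico 1 r, 1 / (t : ℝ) = ((harmonic (r - 1) : ℚ) : ℝ) := by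
      rw [harmonic, sum_Ico_eq_sum_range]
      push_cast
      refine sum_congr rfl fun i _ => ?_
      rw [one_div, add_comm]
    rw [h2]
    refine (harmonic_le_one_add_log (r - 1)).trans ?_
    rcases Nat.eq_zero_or_pos (r - 1) with h | h
    · rw [h]
      simp only [Nat.cast_zero, Real.log_zero]
      have := Real.log_nonneg (by exact_mod_cast hr : (1 : ℝ) ≤ r)
      linarith
    · have h3 : Real.log ((r - 1 : ℕ) : ℝ) ≤ Real.log r :=
        Real.log_le_log (by exact_mod_cast h) (by exact_mod_cast Nat.sub_le r 1)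
      linarith
  have h2 : ∑ t ∈ Ico 1 r, 1 / ((r : ℝ) - t) = ∑ t ∈ Ico 1 r, 1 / (t : ℝ) := by
    refine sum_nbij' (fun t => r - t) (fun t => r - t) ?_ ?_ ?_ ?_ ?_
    · intro t ht
      rw [mem_Ico] at ht ⊢
      omega
    · intro t ht
      rw [mem_Ico] at ht ⊢
      omega
    · intro t ht
      rw [mem_Ico] at ht
      omega
    · intro t ht
      rw [mem_Ico] at ht
      omega
    · intro t ht
      rw [mem_Ico] at ht
      rw [Nat.cast_sub ht.2.le]
  rw [sum_add_distrib, h2]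
  linarith

theorem pg_sum (r : ℕ) [Fact r.Prime] (b s : ZMod r) (m : ℕ) (hm : m ≤ r) (hs : s ≠ 0) :
    ∑ h : ZMod r, ‖Pg r b s m h‖ ≤ r * (2 + Real.log r) := by
  classical
  have hr1 : 1 ≤ r := (Fact.out : r.Prime).one_lt.le
  have hr : (0 : ℝ) < r := by exact_mod_cast (Fact.out : r.Prime).pos
  have h0 : ∑ h : ZMod r, ‖Pg r b s m h‖ = ‖Pg r b s m 0‖ + ∑ h ∈ nz r, ‖Pg r b s m h‖ := by
    have h1 : (univ : Finset (ZMod r)) = insert 0 (nz r) := by
      ext x
      rw [mem_insert, mem_nz]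
      exact ⟨fun _ => em _, fun _ => mem_univ _⟩
    rw [h1, sum_insert (by rw [mem_nz]; exact fun h => h rfl)]
  have h1 : ‖Pg r b s m 0‖ ≤ r := by
    have h2 : Pg r b s m 0 = m := by
      unfold Pg
      simp
    rw [h2, Complex.norm_natCast]
    exact_mod_cast hm
  have h2 : ∑ h ∈ nz r, ‖Pg r b s m h‖ ≤
      ∑ h ∈ nz r, (r : ℝ) / 2 * (1 / ((h * s).val : ℝ) + 1 / (r - (h * s).val)) := by
    refine sum_le_sum fun h hh => ?_
    rw [mem_nz] at hh
    exact pg_bound r b s m h (mul_ne_zero hh hs)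
  have h3 : ∑ h ∈ nz r, (r : ℝ) / 2 * (1 / ((h * s).val : ℝ) + 1 / (r - (h * s).val)) =
      ∑ t ∈ nz r, (r : ℝ) / 2 * (1 / (t.val : ℝ) + 1 / (r - t.val)) := by
    refine sum_nbij' (fun h => h * s) (fun h => h * s⁻¹) ?_ ?_ ?_ ?_ ?_
    · intro x hx
      rw [mem_nz] at hx ⊢
      exact mul_ne_zero hx hs
    · intro x hx
      rw [mem_nz] at hx ⊢
      exact mul_ne_zero hx (inv_ne_zero hs)
    · intro x _
      rw [mul_assoc, mul_inv_cancel₀ hs, mul_one]
    · intro x _
      rw [mul_assoc, inv_mul_cancel₀ hs, mul_one]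
    · intro x _
      rfl
  have h4 : ∑ t ∈ nz r, (r : ℝ) / 2 * (1 / (t.val : ℝ) + 1 / (r - t.val)) =
      ∑ t ∈ Ico 1 r, (r : ℝ) / 2 * (1 / (t : ℝ) + 1 / (r - t)) := by
    refine sum_nbij' (fun t => t.val) (fun t => (t : ZMod r)) ?_ ?_ ?_ ?_ ?_
    · intro t ht
      rw [mem_nz] at ht
      rw [mem_Ico]
      exact ⟨Nat.pos_of_ne_zero (fun h => ht ((ZMod.val_eq_zero t).1 h)), ZMod.val_lt t⟩
    · intro t ht
      rw [mem_Ico] at ht
      rw [mem_nz]
      intro h
      have h5 := (ZMod.natCast_eq_zero_iff t r).1 h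
      have h6 := Nat.le_of_dvd (by omega) h5
      omega
    · intro t _
      rw [ZMod.natCast_val, ZMod.cast_id]
    · intro t ht
      rw [mem_Ico] at ht
      exact ZMod.val_natCast_of_lt ht.2
    · intro t _
      rfl
  rw [h0]
  rw [h3, h4, ← mul_sum] at h2
  have h5 := mul_le_mul_of_nonneg_left (harm r hr1) (by positivity : (0 : ℝ) ≤ (r : ℝ) / 2)
  have h6 : (r : ℝ) / 2 * (2 * (1 + Real.log r)) = r * (1 + Real.log r) := by ring
  rw [h6] at h5
  calc ‖Pg r b s m 0‖ + ∑ h ∈ nz r, ‖Pg r b s m h‖ ≤ r + r * (1 + Real.log r) := add_le_add h1 (h2.trans h5)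
    _ = r * (2 + Real.log r) := by ring

/-- `e` is an indicator -/
theorem orth2 (r : ℕ) [Fact r.Prime] (x y : ZMod r) :
    (if x = y then (r : ℂ) else 0) = ∑ h : ZMod r, (ZMod.stdAddChar (h * (x - y)) : ℂ) := by
  rw [orth]
  simp only [sub_eq_zero]

/-- **solutions of `x y = a` in a box** -/
theorem kl_count (r : ℕ) [Fact r.Prime] (a : ZMod r) (ha : a ≠ 0) (b c s t : ZMod r) (hs : s ≠ 0) (ht : t ≠ 0)
    (m n : ℕ) (hm : m ≤ r) (hn : n ≤ r) :
    |((((range m ×ˢ range n).filter (fun p : ℕ × ℕ => (b + s * (p.1 : ZMod r)) * (c + t * (p.2 : ZMod r)) = a)).card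
      : ℕ) : ℝ) - m * n * (r - 1) / r ^ 2| ≤ 2 * (r : ℝ) ^ (3 / 4 : ℝ) * (2 + Real.log r) ^ 2 := by
  classical
  have hr1 : 1 < r := (Fact.out : r.Prime).one_lt
  have hr : (0 : ℝ) < r := by exact_mod_cast (Fact.out : r.Prime).pos
  have hrc : (r : ℂ) ≠ 0 := by exact_mod_cast hr.ne'
  -- the indicator
  have hind : ∀ x y : ZMod r, (if x * y = a then (r : ℂ) ^ 2 else 0) =
      ∑ h : ZMod r, ∑ k : ZMod r, (ZMod.stdAddChar (h * x) : ℂ) * ZMod.stdAddChar (k * y) * Kl r (-h) (-(k * a)) := by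
    intro x y
    have h1 : (if x * y = a then (r : ℂ) ^ 2 else 0) =
        ∑ z ∈ nz r, (if x = z then (r : ℂ) else 0) * (if y = a * z⁻¹ then (r : ℂ) else 0) := by
      by_cases hx : x = 0
      · rw [if_neg (by rw [hx, zero_mul]; exact fun h => ha h.symm)]
        symm
        refine sum_eq_zero fun z hz => ?_
        rw [mem_nz] at hz
        rw [if_neg (by rw [hx]; exact fun h => hz h.symm), zero_mul]
      · rw [sum_eq_single_of_mem x (mem_nz.2 hx)]
        · rw [if_pos rfl]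
          have h2 : x * y = a ↔ y = a * x⁻¹ := by
            constructor
            · intro h
              rw [← h, mul_comm x y, mul_assoc, mul_inv_cancel₀ hx, mul_one]
            · intro h
              rw [h, mul_comm, mul_assoc, inv_mul_cancel₀ hx, mul_one]
          by_cases h3 : x * y = a
          · rw [if_pos h3, if_pos (h2.1 h3), sq]
          · rw [if_neg h3, if_neg (fun h => h3 (h2.2 h)), mul_zero]
        · intro z _ hz
          rw [if_neg (fun h => hz h.symm), zero_mul]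
    rw [h1]
    have h2 : ∀ z ∈ nz r, (if x = z then (r : ℂ) else 0) * (if y = a * z⁻¹ then (r : ℂ) else 0) =
        ∑ h : ZMod r, ∑ k : ZMod r, (ZMod.stdAddChar (h * x) : ℂ) * ZMod.stdAddChar (k * y) *
          ZMod.stdAddChar (-h * z + -(k * a) * z⁻¹) := by
      intro z _
      rw [orth2, orth2, sum_mul_sum]
      refine sum_congr rfl fun h _ => sum_congr rfl fun k _ => ?_
      rw [← AddChar.map_add_eq_mul, ← AddChar.map_add_eq_mul, ← AddChar.map_add_eq_mul]
      congr 1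
      ring
    rw [sum_congr rfl h2, sum_comm]
    refine sum_congr rfl fun h _ => ?_
    rw [sum_comm]
    refine sum_congr rfl fun k _ => ?_
    unfold Kl
    rw [mul_sum]
  -- the count
  set A := (range m ×ˢ range n).filter (fun p : ℕ × ℕ => (b + s * (p.1 : ZMod r)) * (c + t * (p.2 : ZMod r)) = a)
    with hA
  have hcnt : (r : ℂ) ^ 2 * (A.card : ℂ) =
      ∑ h : ZMod r, ∑ k : ZMod r, Pg r b s m h * Pg r c t n k * Kl r (-h) (-(k * a)) := by
    have h1 : (r : ℂ) ^ 2 * (A.card : ℂ) = ∑ p ∈ range m ×ˢ range n,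
        (if (b + s * (p.1 : ZMod r)) * (c + t * (p.2 : ZMod r)) = a then (r : ℂ) ^ 2 else 0) := by
      rw [hA, card_filter, Nat.cast_sum, mul_sum]
      refine sum_congr rfl fun p _ => ?_
      split_ifs
      · simp
      · simp
    rw [h1, sum_congr rfl (fun p _ => hind _ _), sum_comm]
    refine sum_congr rfl fun h _ => ?_
    rw [sum_comm]
    refine sum_congr rfl fun k _ => ?_
    rw [← sum_mul, sum_product]
    congr 1
    unfold Pg
    rw [sum_mul_sum]
  -- the main term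
  have hmain : ∑ h : ZMod r, ∑ k : ZMod r, Pg r b s m h * Pg r c t n k * Kl r (-h) (-(k * a)) =
      (m : ℂ) * n * (r - 1) + ∑ q ∈ (univ : Finset (ZMod r × ZMod r)).erase (0, 0),
        Pg r b s m q.1 * Pg r c t n q.2 * Kl r (-q.1) (-(q.2 * a)) := by
    have g0 : ∑ h : ZMod r, ∑ k : ZMod r, Pg r b s m h * Pg r c t n k * Kl r (-h) (-(k * a)) =
        ∑ q : ZMod r × ZMod r, Pg r b s m q.1 * Pg r c t n q.2 * Kl r (-q.1) (-(q.2 * a)) := by
      rw [← univ_product_univ, sum_product]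
    rw [g0, ← add_sum_erase univ _ (mem_univ ((0, 0) : ZMod r × ZMod r))]
    congr 1
    have e1 : Pg r b s m 0 = m := by unfold Pg; simp
    have e2 : Pg r c t n 0 = n := by unfold Pg; simp
    have e3 : Kl r (-0) (-(0 * a)) = (r : ℂ) - 1 := by
      unfold Kl
      simp only [neg_zero, zero_mul, add_zero, AddChar.map_zero_eq_one, sum_const, card_nz, nsmul_eq_mul, mul_one]
      rw [Nat.cast_sub hr1.le, Nat.cast_one]
    show Pg r b s m 0 * Pg r c t n 0 * Kl r (-0) (-(0 * a)) = _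
    rw [e1, e2, e3]
  set K : ℝ := 2 * (r : ℝ) ^ (3 / 4 : ℝ) with hK
  have hKl : ∀ q ∈ (univ : Finset (ZMod r × ZMod r)).erase (0, 0), ‖Kl r (-q.1) (-(q.2 * a))‖ ≤ K := by
    intro q hq
    have hq1 : q ≠ (0, 0) := (mem_erase.1 hq).1
    have h1 : -q.1 ≠ 0 ∨ -(q.2 * a) ≠ 0 := by
      by_contra hc
      push Not at hc
      apply hq1
      have e1 : q.1 = 0 := neg_eq_zero.1 hc.1
      have e2 : q.2 = 0 := by
        rcases mul_eq_zero.1 (neg_eq_zero.1 hc.2) with h | h
        · exact h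
        · exact absurd h ha
      exact Prod.ext e1 e2
    have h2 := kl_bound r (-q.1) (-(q.2 * a)) h1
    have h3 : K ^ 4 = 16 * (r : ℝ) ^ 3 := by
      rw [hK, mul_pow, ← Real.rpow_natCast ((r : ℝ) ^ (3 / 4 : ℝ)) 4, ← Real.rpow_mul hr.le]
      norm_num
    have h4 : ‖Kl r (-q.1) (-(q.2 * a))‖ ^ 4 ≤ K ^ 4 := by
      rw [h3]
      have : (0 : ℝ) ≤ (r : ℝ) ^ 3 := by positivity
      linarith
    exact le_of_pow_le_pow_left₀ (by norm_num) (by positivity) h4
  have herr : ‖∑ q ∈ (univ : Finset (ZMod r × ZMod r)).erase (0, 0),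
        Pg r b s m q.1 * Pg r c t n q.2 * Kl r (-q.1) (-(q.2 * a))‖ ≤
      (r : ℝ) ^ 2 * (K * (2 + Real.log r) ^ 2) := by
    calc ‖∑ q ∈ (univ : Finset (ZMod r × ZMod r)).erase (0, 0),
        Pg r b s m q.1 * Pg r c t n q.2 * Kl r (-q.1) (-(q.2 * a))‖
        ≤ ∑ q ∈ (univ : Finset (ZMod r × ZMod r)).erase (0, 0), ‖Pg r b s m q.1‖ * ‖Pg r c t n q.2‖ * K := by
          refine norm_sum_le_of_le _ fun q hq => ?_
          rw [norm_mul, norm_mul]
          exact mul_le_mul_of_nonneg_left (hKl q hq) (by positivity)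
      _ ≤ ∑ q : ZMod r × ZMod r, ‖Pg r b s m q.1‖ * ‖Pg r c t n q.2‖ * K := by
          refine sum_le_sum_of_subset_of_nonneg (erase_subset _ _) fun q _ _ => ?_
          positivity
      _ = (∑ h : ZMod r, ‖Pg r b s m h‖) * (∑ k : ZMod r, ‖Pg r c t n k‖) * K := by
          rw [← sum_mul, sum_mul_sum, ← univ_product_univ, sum_product]
      _ ≤ (r * (2 + Real.log r)) * (r * (2 + Real.log r)) * K := by
          have e1 := pg_sum r b s m hm hs
          have e2 := pg_sum r c t n hn ht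
          have e3 : 0 ≤ Real.log r := Real.log_nonneg (by exact_mod_cast hr1.le)
          have e4 : 0 ≤ ∑ k : ZMod r, ‖Pg r c t n k‖ := sum_nonneg fun _ _ => norm_nonneg _
          gcongr
      _ = _ := by ring
  -- conclusion
  have hfin : (((A.card : ℝ) - m * n * (r - 1) / r ^ 2 : ℝ) : ℂ) =
      (∑ q ∈ (univ : Finset (ZMod r × ZMod r)).erase (0, 0),
        Pg r b s m q.1 * Pg r c t n q.2 * Kl r (-q.1) (-(q.2 * a))) / (r : ℂ) ^ 2 := by
    rw [hmain] at hcnt
    rw [eq_div_iff (pow_ne_zero 2 hrc)]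
    push_cast
    rw [sub_mul, div_mul_cancel₀ _ (pow_ne_zero 2 hrc)]
    linear_combination hcnt
  rw [← Real.norm_eq_abs, ← Complex.norm_real, hfin, norm_div, norm_pow, Complex.norm_natCast,
    div_le_iff₀ (by positivity)]
  refine herr.trans (le_of_eq ?_)
  rw [hK]
  ring

end Pool.Agent.Klo

namespace Pool.Agent.OmKl

open Finset

theorem kl_count (r : ℕ) [Fact r.Prime] (a : ZMod r) (ha : a ≠ 0) (s : ℕ) (hs : s.Coprime r) (b0 c0 : ℕ) (m n : ℕ)
    (hm : m ≤ r) (hn : n ≤ r) :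
    |(((range m ×ˢ range n).filter (fun t => ((b0 + s * t.1 : ℕ) : ZMod r) * ((c0 + s * t.2 : ℕ) : ZMod r) = a)).card : ℝ) -
      (m : ℝ) * n * (r - 1) / r ^ 2| ≤ 2 * ((r : ℝ) ^ (3 / 4 : ℝ) * (Real.log r + 2) ^ 2) := by
  have hr1 : r ≠ 1 := (Fact.out : r.Prime).one_lt.ne'
  have hs0 : (s : ZMod r) ≠ 0 := by
    intro h
    have h1 := (ZMod.natCast_eq_zero_iff s r).1 h
    exact hr1 (Nat.dvd_one.1 (hs.symm.gcd_eq_one ▸ Nat.dvd_gcd dvd_rfl h1))
  have h := Pool.Agent.Klo.kl_count r a ha (b0 : ZMod r) (c0 : ZMod r) (s : ZMod r) (s : ZMod r) hs0 hs0 m n hm hn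
  have e1 : ((range m ×ˢ range n).filter (fun t : ℕ × ℕ =>
      ((b0 + s * t.1 : ℕ) : ZMod r) * ((c0 + s * t.2 : ℕ) : ZMod r) = a)) =
      (range m ×ˢ range n).filter (fun p : ℕ × ℕ =>
        ((b0 : ZMod r) + (s : ZMod r) * (p.1 : ZMod r)) * ((c0 : ZMod r) + (s : ZMod r) * (p.2 : ZMod r)) = a) := by
    refine filter_congr fun p _ => ?_
    push_cast
    exact Iff.rfl
  rw [e1]
  refine h.trans (le_of_eq ?_)
  rw [add_comm (2 : ℝ) (Real.log r)]
  ring

end Pool.Agent.OmKl
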