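import Pool.Agent.Lib_MP_f1a94e_kl.Defs

/-!
# Piece KL3: the Chinese remainder theorem in two variables
-/

set_option autoImplicit false

namespace Pool.Agent.OmKl

open Finset ArithmeticFunction Pool.Agent.OmAP

private theorem crt_sum_aux (f : ℕ → ℕ → ℝ) (T : ℕ) (A : Finset ℕ) : ∀ (q r : ℕ), 0 < q →
    (∀ p ∈ A, p.Prime) → (∀ p ∈ A, Nat.Coprime q p) → (∀ p ∈ A, ∀ s, 0 ≤ f p s) →
    |∑ t ∈ (range T).filter (fun t => t ≡ r [MOD q]), ∏ p ∈ A, f p (t % p) -
      T / q * ∏ p ∈ A, (∑ s ∈ range p, f p s) / p| ≤ ∏ p ∈ A, ∑ s ∈ range p, f p s := by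
  classical
  induction A using Finset.induction_on with
  | empty =>
    intro q r hq _ _ _
    simpa using crt_count_one q r T hq
  | insert p A hpA ih =>
    intro q r hq hP hc hf
    have hp : p.Prime := hP p (mem_insert_self _ _)
    have hqp : Nat.Coprime q p := hc p (mem_insert_self _ _)
    have hfp := hf p (mem_insert_self _ _)
    have hcop : ∀ p' ∈ A, Nat.Coprime (q * p) p' := by
      intro p' hp'
      refine Nat.Coprime.mul_left (hc p' (mem_insert_of_mem hp')) ?_
      refine (Nat.coprime_primes hp (hP p' (mem_insert_of_mem hp'))).mpr ?_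
      rintro rfl
      exact hpA hp'
    have key : ∀ s, |∑ t ∈ (range T).filter (fun t => t ≡
          ((Nat.chineseRemainder hqp r s : ℕ)) [MOD (q * p)]), ∏ p' ∈ A, f p' (t % p') -
        T / ((q * p : ℕ) : ℝ) * ∏ p' ∈ A, (∑ s ∈ range p', f p' s) / p'| ≤
          ∏ p' ∈ A, ∑ s ∈ range p', f p' s := fun s =>
      ih (q * p) _ (Nat.mul_pos hq hp.pos) (fun p' hp' => hP p' (mem_insert_of_mem hp')) hcop
        (fun p' hp' => hf p' (mem_insert_of_mem hp'))
    have hsplit : ∑ t ∈ (range T).filter (fun t => t ≡ r [MOD q]), ∏ p' ∈ insert p A, f p' (t % p') =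
        ∑ s ∈ range p, f p s * ∑ t ∈ (range T).filter (fun t => t ≡
          ((Nat.chineseRemainder hqp r s : ℕ)) [MOD (q * p)]), ∏ p' ∈ A, f p' (t % p') := by
      rw [← Finset.sum_fiberwise_of_maps_to (t := range p) (g := fun t => t % p)
        (fun t _ => mem_range.2 (Nat.mod_lt t hp.pos))]
      refine sum_congr rfl fun s hs => ?_
      rw [mul_sum]
      refine sum_congr ?_ fun t ht => ?_
      · ext t
        simp only [mem_filter, mem_range]
        constructor
        · rintro ⟨⟨htT, htr⟩, hts⟩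
          refine ⟨htT, (Nat.modEq_and_modEq_iff_modEq_mul hqp).mp ⟨?_, ?_⟩⟩
          · exact htr.trans (Nat.chineseRemainder hqp r s).2.1.symm
          · have h1 : t ≡ s [MOD p] := by
              unfold Nat.ModEq
              rw [hts, Nat.mod_eq_of_lt (mem_range.1 hs)]
            exact h1.trans (Nat.chineseRemainder hqp r s).2.2.symm
        · rintro ⟨htT, h⟩
          obtain ⟨h1, h2⟩ := (Nat.modEq_and_modEq_iff_modEq_mul hqp).mpr h
          refine ⟨⟨htT, h1.trans (Nat.chineseRemainder hqp r s).2.1⟩, ?_⟩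
          have h3 : t ≡ s [MOD p] := h2.trans (Nat.chineseRemainder hqp r s).2.2
          unfold Nat.ModEq at h3
          rw [h3, Nat.mod_eq_of_lt (mem_range.1 hs)]
      · rw [mem_filter] at ht
        have h2 := ((Nat.modEq_and_modEq_iff_modEq_mul hqp).mpr ht.2).2.trans
          (Nat.chineseRemainder hqp r s).2.2
        have h3 : t % p = s := by
          unfold Nat.ModEq at h2
          rw [h2, Nat.mod_eq_of_lt (mem_range.1 hs)]
        rw [prod_insert hpA, h3]
    rw [hsplit, prod_insert hpA, prod_insert hpA]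
    have hp0 : (p : ℝ) ≠ 0 := by exact_mod_cast hp.pos.ne'
    have hq0 : (q : ℝ) ≠ 0 := by exact_mod_cast hq.ne'
    have hmain : (T : ℝ) / q * ((∑ s ∈ range p, f p s) / p *
        ∏ p' ∈ A, (∑ s ∈ range p', f p' s) / p') =
        ∑ s ∈ range p, f p s * (T / ((q * p : ℕ) : ℝ) *
          ∏ p' ∈ A, (∑ s ∈ range p', f p' s) / p') := by
      rw [← sum_mul]
      push_cast
      field_simp
    rw [hmain, ← sum_sub_distrib, sum_mul]
    refine (abs_sum_le_sum_abs _ _).trans (sum_le_sum fun s _ => ?_)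
    rw [← mul_sub, abs_mul, abs_of_nonneg (hfp s)]
    exact mul_le_mul_of_nonneg_left (key s) (hfp s)

/-- PROOF. As `crt_count_aux` (ap/Crt.lean): prove first, by induction on `A`, for `q` coprime to the primes of `A`,
`|∑_(t < T, t ≡ r mod q) ∏_(p ∈ A) f p (t % p) - T / q * ∏_(p ∈ A) (∑_(s < p) f p s) / p| ≤ ∏_(p ∈ A) ∑_(s < p) f p s`; the step splits the sum according to `s = t % p` and factors `f p s` out. -/
theorem crt_sum (A : Finset ℕ) (hA : ∀ p ∈ A, p.Prime) (f : ℕ → ℕ → ℝ) (hf : ∀ p ∈ A, ∀ s, 0 ≤ f p s) (T : ℕ) :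
    |∑ t ∈ range T, ∏ p ∈ A, f p (t % p) - T * ∏ p ∈ A, (∑ s ∈ range p, f p s) / p| ≤
      ∏ p ∈ A, ∑ s ∈ range p, f p s := by
  have h := crt_sum_aux f T A 1 0 one_pos hA (fun p _ => Nat.coprime_one_left p) hf
  have h1 : (range T).filter (fun t => t ≡ 0 [MOD 1]) = range T :=
    filter_true_of_mem fun t _ => Nat.modEq_one
  rw [h1, Nat.cast_one, div_one] at h
  exact h

/-- PROOF. For fixed `c < M` apply `crt_count` to `Om p = {β < p : (β, c % p) ∈ B p}`, of cardinality `F p (c % p)`, `F p γ = #{β < p : (β, γ) ∈ B p}`: `#{b} = M ∏ F p (c % p) / p + O(∏ F p (c % p))`, and `∏ F p ≤ ∏ p = d`.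
Sum over `c < M` with `crt_sum`, `f p γ = F p γ / p`, `∑_(γ < p) f p γ = |B p| / p ≤ p`. The error is at most `M d + M d`. -/
theorem box_count (A : Finset ℕ) (hA : ∀ p ∈ A, p.Prime) (B : ℕ → Finset (ℕ × ℕ))
    (hB : ∀ p ∈ A, B p ⊆ range p ×ˢ range p) (M : ℕ) :
    |(((range M ×ˢ range M).filter (fun t => ∀ p ∈ A, (t.1 % p, t.2 % p) ∈ B p)).card : ℝ) -
      (M : ℝ) ^ 2 * ∏ p ∈ A, ((B p).card : ℝ) / p ^ 2| ≤ 2 * (∏ p ∈ A, p : ℕ) * (M : ℝ) := by
  classical
  set F : ℕ → ℕ → ℕ := fun p γ => ((range p).filter (fun β => (β, γ) ∈ B p)).card with hF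
  have hFle : ∀ p γ, F p γ ≤ p := fun p γ => by
    refine (card_filter_le _ _).trans ?_
    rw [card_range]
  -- the rows
  have hrow : ∀ c, |(((range M).filter fun b => ∀ p ∈ A, (b % p, c % p) ∈ B p).card : ℝ) -
      M * ∏ p ∈ A, ((F p (c % p) : ℝ) / p)| ≤ ((∏ p ∈ A, p : ℕ) : ℝ) := by
    intro c
    have h1 := crt_count A hA (fun p => (range p).filter (fun β => (β, c % p) ∈ B p))
      (fun p _ => filter_subset _ _) M
    have h2 : ((range M).filter fun t => ∀ p ∈ A, t % p ∈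
        (range p).filter (fun β => (β, c % p) ∈ B p)) =
        (range M).filter fun b => ∀ p ∈ A, (b % p, c % p) ∈ B p := by
      refine filter_congr fun b _ => forall₂_congr fun p hp => ?_
      rw [mem_filter, mem_range]
      exact and_iff_right (Nat.mod_lt b (hA p hp).pos)
    rw [h2] at h1
    refine h1.trans ?_
    rw [Nat.cast_prod]
    exact prod_le_prod (fun p _ => Nat.cast_nonneg _) fun p _ => by exact_mod_cast hFle p (c % p)
  -- the sum over the rows
  have hcard : (((range M ×ˢ range M).filter (fun t => ∀ p ∈ A, (t.1 % p, t.2 % p) ∈ B p)).card : ℝ) =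
      ∑ c ∈ range M, (((range M).filter fun b => ∀ p ∈ A, (b % p, c % p) ∈ B p).card : ℝ) := by
    rw [← Nat.cast_sum]
    congr 1
    simp only [card_filter]
    rw [sum_product_right]
  -- the sum of the main terms
  have hsumF : ∀ p ∈ A, ∑ γ ∈ range p, (F p γ : ℝ) = ((B p).card : ℝ) := by
    intro p hp
    rw [← Nat.cast_sum]
    congr 1
    have h1 : B p = (range p ×ˢ range p).filter (fun t => t ∈ B p) := by
      ext t
      rw [mem_filter]
      exact ⟨fun h => ⟨hB p hp h, h⟩, fun h => h.2⟩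
    have h2 : (B p).card = ((range p ×ˢ range p).filter (fun t => t ∈ B p)).card := by
      rw [← h1]
    rw [h2]
    simp only [hF, card_filter]
    rw [sum_product_right]
  have hcs := crt_sum A hA (fun p γ => (F p γ : ℝ) / p) (fun p _ s => by positivity) M
  have e1 : ∀ p ∈ A, (∑ s ∈ range p, (F p s : ℝ) / p) = ((B p).card : ℝ) / p := fun p hp => by
    rw [← sum_div, hsumF p hp]
  have e2 : ∏ p ∈ A, (∑ s ∈ range p, (F p s : ℝ) / p) / p = ∏ p ∈ A, ((B p).card : ℝ) / p ^ 2 := by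
    refine prod_congr rfl fun p hp => ?_
    rw [e1 p hp, div_div, sq]
  have e3 : ∏ p ∈ A, (∑ s ∈ range p, (F p s : ℝ) / p) ≤ ((∏ p ∈ A, p : ℕ) : ℝ) := by
    rw [Nat.cast_prod]
    refine prod_le_prod (fun p _ => sum_nonneg fun s _ => by positivity) fun p hp => ?_
    rw [e1 p hp]
    have hp0 : (0 : ℝ) < p := by exact_mod_cast (hA p hp).pos
    rw [div_le_iff₀ hp0]
    have h1 : (B p).card ≤ p * p := by
      refine (card_le_card (hB p hp)).trans ?_
      rw [card_product, card_range]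
    exact_mod_cast h1
  rw [e2] at hcs
  have hcs' := hcs.trans e3
  set P : ℝ := ∏ p ∈ A, ((B p).card : ℝ) / p ^ 2
  set D : ℝ := ((∏ p ∈ A, p : ℕ) : ℝ)
  have hM : (0 : ℝ) ≤ M := Nat.cast_nonneg M
  have h3 : |∑ c ∈ range M, (((range M).filter fun b => ∀ p ∈ A, (b % p, c % p) ∈ B p).card : ℝ) -
      M * ∑ c ∈ range M, ∏ p ∈ A, ((F p (c % p) : ℝ) / p)| ≤ M * D := by
    rw [mul_sum, ← sum_sub_distrib]
    refine (abs_sum_le_sum_abs _ _).trans ((sum_le_sum fun c _ => hrow c).trans ?_)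
    rw [sum_const, card_range, nsmul_eq_mul]
  have h4 : |(M : ℝ) * ∑ c ∈ range M, ∏ p ∈ A, ((F p (c % p) : ℝ) / p) - M * (M * P)| ≤ M * D := by
    rw [← mul_sub, abs_mul, abs_of_nonneg hM]
    exact mul_le_mul_of_nonneg_left hcs' hM
  rw [hcard]
  rw [abs_le] at h3 h4 ⊢
  constructor
  · nlinarith only [h3.1, h4.1]
  · nlinarith only [h3.2, h4.2]

end Pool.Agent.OmKl
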