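import Pool.Agent.Lib_MP_f1a94e_kl.Kl2
import Pool.Agent.Lib_MP_f1a94e_kl.Kl3

/-!
# Piece KL4: level of distribution
-/

set_option autoImplicit false

namespace Pool.Agent.OmKl

open Finset ArithmeticFunction Pool.Agent.OmAP

/-- number of `i` with `β + d i < M` -/
private def mm (d M β : ℕ) : ℕ := (M + d - 1 - β) / d

private theorem lt_mm (d M β i : ℕ) (hd : 0 < d) (hβ : β < d) : i < mm d M β ↔ β + d * i < M := by
  unfold mm
  rw [Nat.lt_iff_add_one_le, Nat.le_div_iff_mul_le hd]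
  have : (i + 1) * d = d * i + d := by ring
  rw [this]
  omega

private theorem mm_le (d M β : ℕ) (hd : 0 < d) (hβ : β < d) : mm d M β ≤ M := by
  by_contra h
  push Not at h
  have h1 := (lt_mm d M β M hd hβ).1 h
  have h2 : M ≤ d * M := Nat.le_mul_of_pos_left M hd
  omega

private theorem split_box (d M : ℕ) (hd : 0 < d) (A : Finset ℕ) (hA : ∀ p ∈ A, p ∣ d)
    (B : ℕ → Finset (ℕ × ℕ)) (R : ℕ → ℕ → Prop) [∀ a b, Decidable (R a b)] :
    ((range M ×ˢ range M).filter (fun t => (∀ p ∈ A, (t.1 % p, t.2 % p) ∈ B p) ∧ R t.1 t.2)).card =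
    ∑ g ∈ (range d ×ˢ range d).filter (fun g => ∀ p ∈ A, (g.1 % p, g.2 % p) ∈ B p),
      ((range (mm d M g.1) ×ˢ range (mm d M g.2)).filter
        (fun t => R (g.1 + d * t.1) (g.2 + d * t.2))).card := by
  classical
  rw [card_eq_sum_card_fiberwise (f := fun t : ℕ × ℕ => (t.1 % d, t.2 % d))
    (t := (range d ×ˢ range d).filter (fun g => ∀ p ∈ A, (g.1 % p, g.2 % p) ∈ B p)) ?_]
  · refine sum_congr rfl fun g hg => ?_
    rw [mem_filter, mem_product, mem_range, mem_range] at hg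
    obtain ⟨⟨g1, g2⟩, g3⟩ := hg
    symm
    refine card_nbij' (fun t => (g.1 + d * t.1, g.2 + d * t.2)) (fun t => (t.1 / d, t.2 / d)) ?_ ?_ ?_ ?_
    · intro t ht
      rw [mem_coe, mem_filter, mem_product, mem_range, mem_range] at ht
      obtain ⟨⟨t1, t2⟩, t3⟩ := ht
      rw [mem_coe, mem_filter, mem_filter, mem_product, mem_range, mem_range]
      refine ⟨⟨⟨(lt_mm d M _ _ hd g1).1 t1, (lt_mm d M _ _ hd g2).1 t2⟩, ?_, t3⟩, ?_⟩
      · intro p hp
        obtain ⟨k, hk⟩ := hA p hp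
        have e1 : ∀ a i : ℕ, (a + d * i) % p = a % p := by
          intro a i
          rw [hk, mul_assoc, Nat.add_mul_mod_self_left]
        simp only [e1]
        exact g3 p hp
      · simp only [Nat.add_mul_mod_self_left, Nat.mod_eq_of_lt g1, Nat.mod_eq_of_lt g2]
    · intro t ht
      rw [mem_coe, mem_filter, mem_filter, mem_product, mem_range, mem_range] at ht
      obtain ⟨⟨⟨t1, t2⟩, -, t4⟩, t5⟩ := ht
      have e1 : t.1 % d = g.1 := by rw [← t5]
      have e2 : t.2 % d = g.2 := by rw [← t5]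
      have f1 : g.1 + d * (t.1 / d) = t.1 := by rw [← e1]; exact Nat.mod_add_div _ _
      have f2 : g.2 + d * (t.2 / d) = t.2 := by rw [← e2]; exact Nat.mod_add_div _ _
      rw [mem_coe, mem_filter, mem_product, mem_range, mem_range]
      refine ⟨⟨(lt_mm d M _ _ hd g1).2 ?_, (lt_mm d M _ _ hd g2).2 ?_⟩, ?_⟩
      · simp only [f1]; exact t1
      · simp only [f2]; exact t2
      · simp only [f1, f2]; exact t4
    · intro t ht
      refine Prod.ext ?_ ?_
      · simp only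
        rw [Nat.add_mul_div_left _ _ hd, Nat.div_eq_of_lt g1, zero_add]
      · simp only
        rw [Nat.add_mul_div_left _ _ hd, Nat.div_eq_of_lt g2, zero_add]
    · intro t ht
      rw [mem_coe, mem_filter] at ht
      have e1 : t.1 % d = g.1 := by rw [← ht.2]
      have e2 : t.2 % d = g.2 := by rw [← ht.2]
      refine Prod.ext ?_ ?_
      · simp only
        rw [← e1]; exact Nat.mod_add_div _ _
      · simp only
        rw [← e2]; exact Nat.mod_add_div _ _
  · intro t ht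
    rw [mem_coe, mem_filter, mem_product, mem_range, mem_range] at ht
    rw [mem_coe, mem_filter, mem_product, mem_range, mem_range]
    refine ⟨⟨Nat.mod_lt _ hd, Nat.mod_lt _ hd⟩, ?_⟩
    intro p hp
    rw [Nat.mod_mod_of_dvd _ (hA p hp), Nat.mod_mod_of_dvd _ (hA p hp)]
    exact ht.2.1 p hp

/-- PROOF. Let `d = ∏_(p ∈ A) p ≥ 1`, coprime to `r`. Split the pairs according to their residues `(β, γ)` modulo `d`; the condition at every `p ∈ A` only depends on them (`p ∣ d`). For one class the number of elements of `PT` is given by helper67's `kl_count` (file Kl2) with `s = d`, `b0 = β`, `c0 = γ`, `m, n` the numbers of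
`b < M`, `b % d = β` (`c < M`, `c % d = γ`), `a = -((L : ZMod r)^2)⁻¹`: it is `(r - 1)/r^2 * m n + O(2 r^(3/4) (log r + 2)^2)`. The sum of `m n` over the classes which are bad at all `p ∈ A` is the box count of `box_count`. There are at most `d^2` classes.
Errors: `2 d^2 r^(3/4) (log r + 2)^2`; `box/r^2 ≤ M^2/r^2 ≤ 1`; `(1/r) 2 d M ≤ 2 d`. -/
theorem level (L r M : ℕ) (hr : r.Prime) (hL : ¬ r ∣ L) (hM : M ≤ r) (A : Finset ℕ) (hA : ∀ p ∈ A, p.Prime)
    (hrA : r ∉ A) (B : ℕ → Finset (ℕ × ℕ)) (hB : ∀ p ∈ A, B p ⊆ range p ×ˢ range p) :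
    |(((PT L r M).filter (fun t => ∀ p ∈ A, (t.1 % p, t.2 % p) ∈ B p)).card : ℝ) -
      (M : ℝ) ^ 2 / r * ∏ p ∈ A, ((B p).card : ℝ) / p ^ 2| ≤
      5 * ((∏ p ∈ A, p : ℕ) : ℝ) ^ 2 * ((r : ℝ) ^ (3 / 4 : ℝ) * (Real.log r + 2) ^ 2) := by
  classical
  have := Fact.mk hr
  set d : ℕ := ∏ p ∈ A, p with hd
  have hd0 : 0 < d := prod_pos fun p hp => (hA p hp).pos
  have hdr : d.Coprime r := Nat.Coprime.prod_left fun p hp =>
    (Nat.coprime_primes (hA p hp) hr).2 (by rintro rfl; exact hrA hp)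
  have hAd : ∀ p ∈ A, p ∣ d := fun p hp => dvd_prod_of_mem (fun p => p) hp
  have hL0 : (L : ZMod r) ≠ 0 := by
    rw [Ne, ZMod.natCast_eq_zero_iff]
    exact hL
  set a : ZMod r := -((L : ZMod r) ^ 2)⁻¹ with ha
  have ha0 : a ≠ 0 := neg_ne_zero.2 (inv_ne_zero (pow_ne_zero 2 hL0))
  have hiff : ∀ b c : ℕ, r ∣ L ^ 2 * (b * c) + 1 ↔ ((b : ℕ) : ZMod r) * ((c : ℕ) : ZMod r) = a := by
    intro b c
    rw [← ZMod.natCast_eq_zero_iff]
    push_cast
    have hL2 : (L : ZMod r) ^ 2 ≠ 0 := pow_ne_zero 2 hL0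
    constructor
    · intro h
      have h1 : (L : ZMod r) ^ 2 * ((b : ZMod r) * c) = -1 := by linear_combination h
      rw [ha]
      field_simp
      linear_combination h1
    · intro h
      rw [h, ha, mul_neg, mul_inv_cancel₀ hL2]
      ring
  set E : ℝ := (r : ℝ) ^ (3 / 4 : ℝ) * (Real.log r + 2) ^ 2 with hE
  have hr1 : (1 : ℝ) ≤ r := by exact_mod_cast hr.one_lt.le
  have hr0 : (0 : ℝ) < r := by linarith
  have hE1 : 1 ≤ E := by
    have e1 : (1 : ℝ) ≤ (r : ℝ) ^ (3 / 4 : ℝ) := Real.one_le_rpow hr1 (by norm_num)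
    have e2 : 0 ≤ Real.log r := Real.log_nonneg hr1
    have e3 : (1 : ℝ) ≤ (Real.log r + 2) ^ 2 := by nlinarith
    exact one_le_mul_of_one_le_of_one_le e1 e3
  set G := (range d ×ˢ range d).filter (fun g => ∀ p ∈ A, (g.1 % p, g.2 % p) ∈ B p) with hG
  -- the count
  have hcount : ((PT L r M).filter (fun t => ∀ p ∈ A, (t.1 % p, t.2 % p) ∈ B p)).card =
      ∑ g ∈ G, ((range (mm d M g.1) ×ˢ range (mm d M g.2)).filter
        (fun t => r ∣ L ^ 2 * ((g.1 + d * t.1) * (g.2 + d * t.2)) + 1)).card := by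
    rw [← split_box d M hd0 A hAd B (fun b c => r ∣ L ^ 2 * (b * c) + 1)]
    congr 1
    unfold PT
    rw [filter_filter]
    refine filter_congr fun t _ => ?_
    exact and_comm
  have hbox : ((range M ×ˢ range M).filter (fun t => ∀ p ∈ A, (t.1 % p, t.2 % p) ∈ B p)).card =
      ∑ g ∈ G, mm d M g.1 * mm d M g.2 := by
    have h1 := split_box d M hd0 A hAd B (fun _ _ => True)
    simp only [and_true, filter_true, card_product, card_range] at h1
    exact h1
  have hGc : (G.card : ℝ) ≤ (d : ℝ) ^ 2 := by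
    have h1 : G.card ≤ d * d := by
      refine (card_filter_le _ _).trans ?_
      rw [card_product, card_range]
    rw [sq]
    exact_mod_cast h1
  have hone : ∀ g ∈ G, |(((range (mm d M g.1) ×ˢ range (mm d M g.2)).filter
        (fun t => r ∣ L ^ 2 * ((g.1 + d * t.1) * (g.2 + d * t.2)) + 1)).card : ℝ) -
      (mm d M g.1 : ℝ) * (mm d M g.2) * (r - 1) / r ^ 2| ≤ 2 * E := by
    intro g hg
    rw [hG, mem_filter, mem_product, mem_range, mem_range] at hg
    obtain ⟨⟨g1, g2⟩, -⟩ := hg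
    have h1 := kl_count r a ha0 d hdr g.1 g.2 (mm d M g.1) (mm d M g.2)
      ((mm_le d M g.1 hd0 g1).trans hM) ((mm_le d M g.2 hd0 g2).trans hM)
    have h2 : ((range (mm d M g.1) ×ˢ range (mm d M g.2)).filter
        (fun t => r ∣ L ^ 2 * ((g.1 + d * t.1) * (g.2 + d * t.2)) + 1)) =
        ((range (mm d M g.1) ×ˢ range (mm d M g.2)).filter (fun t =>
          ((g.1 + d * t.1 : ℕ) : ZMod r) * ((g.2 + d * t.2 : ℕ) : ZMod r) = a)) :=
      filter_congr fun t _ => hiff _ _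
    rw [h2]
    exact h1
  -- the sum
  set cnt : ℝ := (((PT L r M).filter (fun t => ∀ p ∈ A, (t.1 % p, t.2 % p) ∈ B p)).card : ℝ) with hcnt
  set bx : ℝ := (((range M ×ˢ range M).filter (fun t => ∀ p ∈ A, (t.1 % p, t.2 % p) ∈ B p)).card : ℝ) with hbx
  have hbx' : bx = ∑ g ∈ G, (mm d M g.1 : ℝ) * (mm d M g.2) := by
    rw [hbx, hbox]
    push_cast
    rfl
  have h1 : |cnt - bx * (r - 1) / r ^ 2| ≤ (d : ℝ) ^ 2 * (2 * E) := by
    have e1 : cnt - bx * (r - 1) / r ^ 2 = ∑ g ∈ G, ((((range (mm d M g.1) ×ˢ range (mm d M g.2)).filter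
        (fun t => r ∣ L ^ 2 * ((g.1 + d * t.1) * (g.2 + d * t.2)) + 1)).card : ℝ) -
      (mm d M g.1 : ℝ) * (mm d M g.2) * (r - 1) / r ^ 2) := by
      rw [sum_sub_distrib, hcnt, hcount, hbx', sum_mul, sum_div]
      push_cast
      rfl
    rw [e1]
    refine (abs_sum_le_sum_abs _ _).trans ((sum_le_sum hone).trans ?_)
    rw [sum_const, nsmul_eq_mul]
    exact mul_le_mul_of_nonneg_right hGc (by positivity)
  have h2 := box_count A hA B hB M
  rw [← hd, ← hbx] at h2
  set PB : ℝ := ∏ p ∈ A, ((B p).card : ℝ) / p ^ 2 with hPB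
  have hM' : (M : ℝ) ≤ r := by exact_mod_cast hM
  have hM0 : (0 : ℝ) ≤ M := Nat.cast_nonneg M
  have hd1 : (1 : ℝ) ≤ d := by exact_mod_cast hd0
  have hbx0 : 0 ≤ bx := Nat.cast_nonneg _
  have hbxM : bx ≤ (r : ℝ) ^ 2 := by
    have e1 : bx ≤ (M : ℝ) * M := by
      rw [hbx]
      have := card_filter_le (range M ×ˢ range M) (fun t : ℕ × ℕ => ∀ p ∈ A, (t.1 % p, t.2 % p) ∈ B p)
      rw [card_product, card_range] at this
      exact_mod_cast this
    nlinarith
  -- second difference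
  have h3 : |bx * (r - 1) / r ^ 2 - bx / r| ≤ 1 := by
    have e1 : bx * (r - 1) / r ^ 2 - bx / r = -(bx / r ^ 2) := by
      field_simp
      ring
    rw [e1, abs_neg, abs_of_nonneg (by positivity), div_le_one (by positivity)]
    exact hbxM
  have h4 : |bx / r - (M : ℝ) ^ 2 / r * PB| ≤ 2 * d := by
    have e1 : bx / r - (M : ℝ) ^ 2 / r * PB = (bx - (M : ℝ) ^ 2 * PB) / r := by ring
    rw [e1, abs_div, abs_of_pos hr0, div_le_iff₀ hr0]
    refine h2.trans ?_
    exact mul_le_mul_of_nonneg_left hM' (by positivity)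
  have h5 : |cnt - (M : ℝ) ^ 2 / r * PB| ≤ (d : ℝ) ^ 2 * (2 * E) + 1 + 2 * d := by
    have e1 : cnt - (M : ℝ) ^ 2 / r * PB = (cnt - bx * (r - 1) / r ^ 2) + (bx * (r - 1) / r ^ 2 - bx / r) +
      (bx / r - (M : ℝ) ^ 2 / r * PB) := by ring
    rw [e1]
    exact (abs_add_three _ _ _).trans (add_le_add (add_le_add h1 h3) h4)
  refine h5.trans ?_
  have h6 : (d : ℝ) ≤ (d : ℝ) ^ 2 := by nlinarith
  have h7 : (d : ℝ) ^ 2 ≤ (d : ℝ) ^ 2 * E := le_mul_of_one_le_right (by positivity) hE1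
  nlinarith

end Pool.Agent.OmKl
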