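import Pool.Agent.Lib_MP_f1a94e_ap.BrunHooley
import Pool.Agent.Lib_MP_f1a94e_ap.ProdLower

/-!
# MP_f1a94e_nt: the Brun-Hooley lower bound sieve for an arbitrary finite set
-/

set_option autoImplicit false

namespace Pool.Agent.OmAP

open Finset

theorem mem_PP' {K z p : ℕ} : p ∈ PP K z ↔ (2 * K < p ∧ p ≤ z) ∧ p.Prime := by
  simp [PP]

/-- a set of primes is determined by its product -/
theorem prod_primes_inj' {A B : Finset ℕ} (hA : ∀ p ∈ A, p.Prime) (hB : ∀ p ∈ B, p.Prime)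
    (h : ∏ p ∈ A, p = ∏ p ∈ B, p) : A = B := by
  have key : ∀ {A B : Finset ℕ}, (∀ p ∈ A, p.Prime) → (∀ p ∈ B, p.Prime) →
      ∏ p ∈ A, p = ∏ p ∈ B, p → A ⊆ B := by
    intro A B hA hB h p hp
    have h1 : p ∣ ∏ p ∈ B, p := h ▸ Finset.dvd_prod_of_mem (fun p => p) hp
    obtain ⟨r, hr, hpr⟩ := (Prime.dvd_finsetProd_iff (hA p hp).prime (fun p => p)).mp h1
    have : p = r := (Nat.prime_dvd_prime_iff_eq (hA p hp) (hB r hr)).mp hpr
    exact this ▸ hr
  exact Finset.Subset.antisymm (key hA hB h) (key hB hA h.symm)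

/-- The Brun-Hooley lower bound sieve for a finite set `S` with local conditions `bad p`. -/
theorem sieve_abs (K : ℕ) : ∃ C : ℕ, ∀ z : ℕ, 2 ≤ z → ∀ {ι : Type} (S : Finset ι)
    (bad : ℕ → ι → Prop) [∀ p s, Decidable (bad p s)] (X E : ℝ) (g : ℕ → ℝ), 0 ≤ X → 0 ≤ E →
    (∀ p ∈ PP K z, 0 ≤ g p ∧ g p ≤ (K : ℝ) / p) →
    (∀ A ⊆ PP K z, ∏ p ∈ A, p ≤ z ^ C →
      |((S.filter fun s => ∀ p ∈ A, bad p s).card : ℝ) - X * ∏ p ∈ A, g p| ≤ E) →
    X / 2 * ∏ p ∈ PP K z, (1 - g p) - (z : ℝ) ^ C * E ≤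
      ((S.filter fun s => ∀ p ∈ PP K z, ¬ bad p s).card : ℝ) := by
  classical
  obtain ⟨C0, hC0⟩ := brun_hooley K
  refine ⟨C0, ?_⟩
  intro z hz ι S bad _ X E g hX hE hg hA
  obtain ⟨lam, h1, h2, h3, h4⟩ := hC0 z hz
  have hprime : ∀ p ∈ PP K z, p.Prime := fun p hp => (mem_PP'.mp hp).2
  -- the sets of bad primes
  set B : ι → Finset ℕ := fun s => (PP K z).filter fun p => bad p s with hB
  have hBsub : ∀ s, B s ⊆ PP K z := fun s => Finset.filter_subset _ _
  set N : Finset ℕ → ℕ := fun A => (S.filter fun s => ∀ p ∈ A, bad p s).card with hN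
  have hcount : ((S.filter fun s => ∀ p ∈ PP K z, ¬ bad p s).card : ℝ) =
      ∑ s ∈ S, (if B s = ∅ then (1 : ℝ) else 0) := by
    rw [Finset.card_filter]
    push_cast
    refine Finset.sum_congr rfl fun s _ => ?_
    have : (∀ p ∈ PP K z, ¬ bad p s) ↔ B s = ∅ := by
      simp only [hB, Finset.filter_eq_empty_iff]
    simp only [this]
  have hstep1 : ∑ A ∈ (PP K z).powerset, lam A * (N A : ℝ) ≤
      ((S.filter fun s => ∀ p ∈ PP K z, ¬ bad p s).card : ℝ) := by
    rw [hcount]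
    have e1 : ∑ A ∈ (PP K z).powerset, lam A * (N A : ℝ) =
        ∑ s ∈ S, ∑ A ∈ (B s).powerset, lam A := by
      have e2 : ∀ A ∈ (PP K z).powerset, lam A * (N A : ℝ) =
          ∑ s ∈ S, (if A ⊆ B s then lam A else 0) := by
        intro A hA
        have hAP : A ⊆ PP K z := Finset.mem_powerset.mp hA
        have e3 : (N A : ℝ) = ∑ s ∈ S, (if A ⊆ B s then (1 : ℝ) else 0) := by
          simp only [hN]
          rw [Finset.card_filter]
          push_cast
          refine Finset.sum_congr rfl fun s _ => ?_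
          have : (∀ p ∈ A, bad p s) ↔ A ⊆ B s := by
            constructor
            · intro h p hp
              exact Finset.mem_filter.mpr ⟨hAP hp, h p hp⟩
            · intro h p hp
              exact (Finset.mem_filter.mp (h hp)).2
          simp only [this]
        rw [e3, Finset.mul_sum]
        refine Finset.sum_congr rfl fun s _ => ?_
        split_ifs <;> simp
      rw [Finset.sum_congr rfl e2, Finset.sum_comm]
      refine Finset.sum_congr rfl fun s _ => ?_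
      rw [← Finset.sum_filter]
      refine Finset.sum_congr ?_ fun _ _ => rfl
      ext A
      simp only [Finset.mem_filter, Finset.mem_powerset]
      exact ⟨fun h => h.2, fun h => ⟨h.trans (hBsub s), h⟩⟩
    rw [e1]
    exact Finset.sum_le_sum fun s _ => h3 (B s) (hBsub s)
  -- the number of relevant sets
  set F : Finset (Finset ℕ) := (PP K z).powerset.filter fun A => lam A ≠ 0 with hF
  have hFcard : F.card ≤ z ^ C0 := by
    have : F.card ≤ (Finset.Icc 1 (z ^ C0)).card := by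
      refine Finset.card_le_card_of_injOn (fun A => ∏ p ∈ A, p) ?_ ?_
      · intro A hA
        have hA' : A ⊆ PP K z ∧ lam A ≠ 0 := by
          have := Finset.mem_filter.mp (Finset.mem_coe.mp hA)
          exact ⟨Finset.mem_powerset.mp this.1, this.2⟩
        refine Finset.mem_coe.mpr (Finset.mem_Icc.mpr ⟨?_, h2 A hA'.1 hA'.2⟩)
        exact Finset.prod_pos fun p hp => (hprime p (hA'.1 hp)).pos
      · intro A hA B hB hAB
        have hA' : A ⊆ PP K z :=
          Finset.mem_powerset.mp (Finset.mem_filter.mp (Finset.mem_coe.mp hA)).1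
        have hB' : B ⊆ PP K z :=
          Finset.mem_powerset.mp (Finset.mem_filter.mp (Finset.mem_coe.mp hB)).1
        exact prod_primes_inj' (fun p hp => hprime p (hA' hp)) (fun p hp => hprime p (hB' hp)) hAB
    simpa using this
  have hterm : ∀ A ∈ (PP K z).powerset,
      lam A * (X * ∏ p ∈ A, g p) - (if lam A ≠ 0 then E else 0) ≤ lam A * (N A : ℝ) := by
    intro A hA'
    have hAP : A ⊆ PP K z := Finset.mem_powerset.mp hA'
    by_cases hl : lam A = 0
    · simp [hl]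
    · rw [if_pos hl]
      have hc := hA A hAP (h2 A hAP hl)
      have habs : |lam A * ((N A : ℝ) - X * ∏ p ∈ A, g p)| ≤ E := by
        rw [abs_mul]
        calc |lam A| * |(N A : ℝ) - X * ∏ p ∈ A, g p| ≤ 1 * E :=
              mul_le_mul (h1 A) hc (abs_nonneg _) (by norm_num)
          _ = E := one_mul _
      have := (abs_le.mp habs).1
      rw [mul_sub] at this
      linarith
  have hsum : ∑ A ∈ (PP K z).powerset, lam A * (X * ∏ p ∈ A, g p) -
      (z : ℝ) ^ C0 * E ≤ ∑ A ∈ (PP K z).powerset, lam A * (N A : ℝ) := by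
    have h := Finset.sum_le_sum hterm
    rw [Finset.sum_sub_distrib] at h
    have he : ∑ A ∈ (PP K z).powerset, (if lam A ≠ 0 then E else 0) ≤ (z : ℝ) ^ C0 * E := by
      rw [← Finset.sum_filter, Finset.sum_const, nsmul_eq_mul]
      refine mul_le_mul_of_nonneg_right ?_ hE
      exact_mod_cast hFcard
    linarith
  have hmain : X / 2 * ∏ p ∈ PP K z, (1 - g p) ≤
      ∑ A ∈ (PP K z).powerset, lam A * (X * ∏ p ∈ A, g p) := by
    have h := h4 g hg
    have h' := mul_le_mul_of_nonneg_left h hX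
    rw [Finset.mul_sum] at h'
    calc X / 2 * ∏ p ∈ PP K z, (1 - g p) = X * (1 / 2 * ∏ p ∈ PP K z, (1 - g p)) := by ring
      _ ≤ ∑ A ∈ (PP K z).powerset, X * (lam A * ∏ p ∈ A, g p) := h'
      _ = _ := Finset.sum_congr rfl fun A _ => by ring
  linarith

/-- the sum of the reciprocals of the primes up to `2 ^ (2 ^ n)` -/
theorem recip_tower : ∃ B : ℝ, 0 < B ∧ ∀ n : ℕ,
    ∑ p ∈ (Icc 1 (2 ^ (2 ^ n))).filter Nat.Prime, (1 : ℝ) / p ≤ B * (n + 1) := by
  obtain ⟨B, hB, h⟩ := recip_block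
  refine ⟨max B 1, lt_max_of_lt_right one_pos, fun n => ?_⟩
  induction n with
  | zero =>
    have h1 : (Icc 1 (2 ^ (2 ^ 0))).filter Nat.Prime = {2} := by decide
    rw [h1, sum_singleton]
    have := le_max_right B 1
    push_cast
    norm_num
  | succ n ih =>
    have h1 : (Icc 1 (2 ^ (2 ^ (n + 1)))).filter Nat.Prime ⊆
        (Icc 1 (2 ^ (2 ^ n))).filter Nat.Prime ∪
          (Ioc (2 ^ (2 ^ n)) ((2 ^ (2 ^ n) + 1) ^ 2)).filter Nat.Prime := by
      intro p hp
      rw [mem_filter, mem_Icc] at hp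
      rw [mem_union, mem_filter, mem_filter, mem_Icc, mem_Ioc]
      by_cases hle : p ≤ 2 ^ (2 ^ n)
      · exact Or.inl ⟨⟨hp.1.1, hle⟩, hp.2⟩
      · refine Or.inr ⟨⟨by omega, hp.1.2.trans ?_⟩, hp.2⟩
        rw [pow_succ 2 n, pow_mul]
        exact Nat.pow_le_pow_left (Nat.le_succ _) 2
    have h2 := h (2 ^ (2 ^ n))
    calc ∑ p ∈ (Icc 1 (2 ^ (2 ^ (n + 1)))).filter Nat.Prime, (1 : ℝ) / p ≤
        ∑ p ∈ (Icc 1 (2 ^ (2 ^ n))).filter Nat.Prime ∪
          (Ioc (2 ^ (2 ^ n)) ((2 ^ (2 ^ n) + 1) ^ 2)).filter Nat.Prime, (1 : ℝ) / p := by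
          apply Finset.sum_le_sum_of_subset_of_nonneg h1
          intro _ _ _
          positivity
      _ ≤ ∑ p ∈ (Icc 1 (2 ^ (2 ^ n))).filter Nat.Prime, (1 : ℝ) / p +
          ∑ p ∈ (Ioc (2 ^ (2 ^ n)) ((2 ^ (2 ^ n) + 1) ^ 2)).filter Nat.Prime, (1 : ℝ) / p := by
          rw [← Finset.sum_union_inter]
          have : 0 ≤ ∑ p ∈ (Icc 1 (2 ^ (2 ^ n))).filter Nat.Prime ∩
              (Ioc (2 ^ (2 ^ n)) ((2 ^ (2 ^ n) + 1) ^ 2)).filter Nat.Prime, (1 : ℝ) / p :=
            Finset.sum_nonneg fun _ _ => by positivity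
          linarith
      _ ≤ max B 1 * (n + 1) + max B 1 := add_le_add ih (h2.trans (le_max_left _ _))
      _ = max B 1 * ((n + 1 : ℕ) + 1) := by push_cast; ring

/-- a double power of two just above `z` -/
theorem exists_tower (z : ℕ) (hz : 2 ≤ z) :
    ∃ n : ℕ, z ≤ 2 ^ (2 ^ n) ∧ (2 : ℝ) ^ n ≤ 8 * Real.log z := by
  set m := Nat.clog 2 z with hm
  have hm1 : 1 ≤ m := Nat.clog_pos (by norm_num) hz
  have hzm : z ≤ 2 ^ m := Nat.le_pow_clog (by norm_num) z
  have hmz : 2 ^ (m - 1) < z := Nat.pow_pred_clog_lt_self (by norm_num) (by omega)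
  set n := Nat.clog 2 m with hn
  have hmn : m ≤ 2 ^ n := Nat.le_pow_clog (by norm_num) m
  have hnm : 2 ^ n ≤ 2 * m := by
    rcases Nat.lt_or_ge m 2 with h | h
    · have h1 : m = 1 := by omega
      have h2 : n = 0 := by rw [hn, h1]; exact Nat.clog_one_right 2
      rw [h2, h1]; norm_num
    · have h1 : 2 ^ (n - 1) < m := Nat.pow_pred_clog_lt_self (by norm_num) (by omega)
      have h2 : 1 ≤ n := Nat.clog_pos (by norm_num) h
      obtain ⟨k, hk⟩ : ∃ k, n = k + 1 := ⟨n - 1, by omega⟩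
      rw [hk] at h1 ⊢
      rw [Nat.add_sub_cancel] at h1
      rw [pow_succ]
      omega
  refine ⟨n, hzm.trans (Nat.pow_le_pow_right (by norm_num) hmn), ?_⟩
  have hz0 : (0 : ℝ) < z := by exact_mod_cast (by omega : 0 < z)
  have hl2 : (1 / 2 : ℝ) ≤ Real.log 2 := by
    have := Real.log_two_gt_d9; linarith
  have h3 : ((m : ℝ) - 1) * Real.log 2 ≤ Real.log z := by
    have h4 : ((2 : ℝ) ^ (m - 1)) ≤ z := by exact_mod_cast hmz.le
    have h5 := Real.log_le_log (by positivity) h4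
    rw [Real.log_pow] at h5
    have h6 : ((m - 1 : ℕ) : ℝ) = (m : ℝ) - 1 := by
      rw [Nat.cast_sub hm1]; simp
    rwa [h6] at h5
  have h7 : Real.log 2 ≤ Real.log z := Real.log_le_log (by norm_num) (by exact_mod_cast hz)
  have hm1' : (1 : ℝ) ≤ m := by exact_mod_cast hm1
  have h8 : (m : ℝ) * Real.log 2 ≤ 2 * Real.log z := by nlinarith
  have h9 : (m : ℝ) ≤ 4 * Real.log z := by nlinarith
  have h10 : ((2 ^ n : ℕ) : ℝ) ≤ ((2 * m : ℕ) : ℝ) := by exact_mod_cast hnm
  push_cast at h10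
  linarith

/-- the product of `1 - K / p` over `PP K z` is at least a negative power of `log z` -/
theorem prod_log (K : ℕ) : ∃ C : ℕ, ∀ z : ℕ, 3 ≤ z →
    1 / (Real.log z) ^ C ≤ ∏ p ∈ PP K z, (1 - (K : ℝ) / p) := by
  obtain ⟨B, hB, h⟩ := recip_tower
  obtain ⟨B', hB'⟩ := exists_nat_ge B
  refine ⟨34 * (4 * K * B'), fun z hz => ?_⟩
  obtain ⟨n, hzn, hn⟩ := exists_tower z (by omega)
  have hlog : (1.09 : ℝ) ≤ Real.log z := by
    have h1 : Real.log 3 ≤ Real.log z := Real.log_le_log (by norm_num) (by exact_mod_cast hz)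
    have h2 : (1.09 : ℝ) ≤ Real.log 3 := by
      rw [Real.le_log_iff_exp_le (by norm_num)]
      have h3 := Real.exp_one_lt_d9
      have h4 : Real.exp 1.09 = Real.exp 1 * Real.exp 0.09 := by
        rw [← Real.exp_add]; norm_num
      have h5 : Real.exp 0.09 ≤ 1.1 := by
        have h6 := Real.exp_bound' (x := 0.09) (by norm_num) (by norm_num) (n := 2) (by norm_num)
        refine h6.trans ?_
        norm_num [Finset.sum_range_succ, Nat.factorial]
      rw [h4]
      have h7 : 0 < Real.exp 0.09 := Real.exp_pos _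
      nlinarith
    linarith
  have hlog0 : (0 : ℝ) < Real.log z := by linarith
  -- the product against the sum
  have hmem : ∀ p ∈ PP K z, (2 : ℝ) * K ≤ p ∧ (0 : ℝ) < p := by
    intro p hp
    have h1 := (mem_PP'.mp hp).1.1
    have h2 := (mem_PP'.mp hp).2.pos
    exact ⟨by exact_mod_cast h1.le, by exact_mod_cast h2⟩
  have hfac : ∀ p ∈ PP K z, Real.exp (-(2 * ((K : ℝ) * (1 / p)))) ≤ 1 - (K : ℝ) / p := by
    intro p hp
    obtain ⟨h1, h2⟩ := hmem p hp
    set t : ℝ := (K : ℝ) / p with ht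
    have ht0 : 0 ≤ t := by positivity
    have ht1 : 2 * t ≤ 1 := by
      rw [ht, mul_div_assoc', div_le_one h2]
      exact h1
    have e1 : (K : ℝ) * (1 / p) = t := by rw [ht]; ring
    rw [e1, Real.exp_neg]
    have h3 : 1 + 2 * t ≤ Real.exp (2 * t) := by
      have := Real.add_one_le_exp (2 * t)
      linarith
    have h4 : (Real.exp (2 * t))⁻¹ ≤ (1 + 2 * t)⁻¹ := inv_anti₀ (by linarith) h3
    refine h4.trans ?_
    rw [inv_le_iff_one_le_mul₀ (by linarith)]
    nlinarith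
  have hprod : Real.exp (-(2 * K * ∑ p ∈ PP K z, (1 : ℝ) / p)) ≤
      ∏ p ∈ PP K z, (1 - (K : ℝ) / p) := by
    refine le_trans (le_of_eq ?_) (Finset.prod_le_prod (fun p _ => (Real.exp_pos _).le) hfac)
    rw [← Real.exp_sum]
    congr 1
    rw [Finset.sum_neg_distrib, Finset.mul_sum]
    congr 1
    refine Finset.sum_congr rfl fun p _ => ?_
    ring
  have hsum : ∑ p ∈ PP K z, (1 : ℝ) / p ≤ B' * (n + 1) := by
    have h1 : PP K z ⊆ (Icc 1 (2 ^ (2 ^ n))).filter Nat.Prime := by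
      intro p hp
      have h2 := mem_PP'.mp hp
      rw [mem_filter, mem_Icc]
      exact ⟨⟨h2.2.pos, h2.1.2.trans hzn⟩, h2.2⟩
    calc ∑ p ∈ PP K z, (1 : ℝ) / p ≤
        ∑ p ∈ (Icc 1 (2 ^ (2 ^ n))).filter Nat.Prime, (1 : ℝ) / p := by
          apply Finset.sum_le_sum_of_subset_of_nonneg h1
          intro _ _ _
          positivity
      _ ≤ B * (n + 1) := h n
      _ ≤ B' * (n + 1) := mul_le_mul_of_nonneg_right hB' (by positivity)
  refine le_trans ?_ hprod
  -- comparison with a power of two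
  have h1 : Real.exp (-(2 * K * (B' * (n + 1)))) ≤
      Real.exp (-(2 * K * ∑ p ∈ PP K z, (1 : ℝ) / p)) := by
    apply Real.exp_le_exp.mpr
    have : (0 : ℝ) ≤ 2 * K := by positivity
    nlinarith
  refine le_trans ?_ h1
  have h2 : Real.exp (-(2 * K * (B' * (n + 1)))) = 1 / (Real.exp 1) ^ (2 * K * B' * (n + 1)) := by
    rw [Real.exp_neg, ← Real.exp_nat_mul, one_div]
    congr 2
    push_cast
    ring
  rw [h2]
  apply one_div_le_one_div_of_le (by positivity)
  have he : Real.exp 1 ≤ 2 ^ 2 := by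
    have := Real.exp_one_lt_d9; norm_num; linarith
  have h16 : (16 : ℝ) * Real.log z ≤ (Real.log z) ^ 34 := by
    have h3 : (16 : ℝ) ≤ (1.09 : ℝ) ^ 33 := by norm_num
    have h4 : (1.09 : ℝ) ^ 33 ≤ (Real.log z) ^ 33 := pow_le_pow_left₀ (by norm_num) hlog 33
    calc (16 : ℝ) * Real.log z ≤ (Real.log z) ^ 33 * Real.log z :=
          mul_le_mul_of_nonneg_right (h3.trans h4) hlog0.le
      _ = (Real.log z) ^ 34 := by ring
  calc (Real.exp 1) ^ (2 * K * B' * (n + 1)) ≤ (2 ^ 2) ^ (2 * K * B' * (n + 1)) :=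
        pow_le_pow_left₀ (Real.exp_pos _).le he _
    _ = ((2 : ℝ) ^ (n + 1)) ^ (4 * K * B') := by
        rw [← pow_mul, ← pow_mul]; congr 1; ring
    _ ≤ (16 * Real.log z) ^ (4 * K * B') := by
        apply pow_le_pow_left₀ (by positivity)
        rw [pow_succ]
        linarith
    _ ≤ ((Real.log z) ^ 34) ^ (4 * K * B') := pow_le_pow_left₀ (by positivity) h16 _
    _ = (Real.log z) ^ (34 * (4 * K * B')) := by rw [← pow_mul]

end Pool.Agent.OmAP
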