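import Pool.Agent.Lib_MP_f1a94e_kl.Kl4
import Pool.Agent.Lib_MP_f1a94e_kl.Sv

/-!
# Piece KL5: the sieve
-/

set_option autoImplicit false

namespace Pool.Agent.OmKl

open Finset ArithmeticFunction Pool.Agent.OmAP

/-- the error terms are small -/
theorem sieve_pairs_err (C0 K z r : ℕ) (hz : 2 ≤ z) (hzr : z ^ (16 * (19 + 3 * C0 + 2 * K)) ≤ r) :
    320 * (z : ℝ) ^ (3 * C0 + 2 * K) * ((r : ℝ) ^ (3 / 4 : ℝ) * (Real.log r + 2) ^ 2) ≤ r := by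
  have hr1' : 1 ≤ r := (Nat.one_le_pow _ _ (by omega)).trans hzr
  have hr1 : (1 : ℝ) ≤ r := by exact_mod_cast hr1'
  have hr0 : (0 : ℝ) < r := by linarith
  have hz2 : (2 : ℝ) ≤ z := by exact_mod_cast hz
  have hlog0 : 0 ≤ Real.log r := Real.log_nonneg hr1
  set x : ℝ := (r : ℝ) ^ (1 / 32 : ℝ) with hx
  have hx1 : 1 ≤ x := Real.one_le_rpow hr1 (by norm_num)
  have hlog : Real.log r ≤ 32 * x := by
    have h := Real.log_le_rpow_div hr0.le (by norm_num : (0 : ℝ) < 1 / 32)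
    refine h.trans (le_of_eq ?_)
    rw [hx]
    ring
  have h1 : (Real.log r + 2) ^ 2 ≤ 1156 * x ^ 2 := by
    have h2 : Real.log r + 2 ≤ 34 * x := by linarith
    have h3 : (Real.log r + 2) ^ 2 ≤ (34 * x) ^ 2 := pow_le_pow_left₀ (by linarith) h2 2
    calc (Real.log r + 2) ^ 2 ≤ (34 * x) ^ 2 := h3
      _ = 1156 * x ^ 2 := by ring
  have hx2 : x ^ 2 = (r : ℝ) ^ (1 / 16 : ℝ) := by
    rw [hx, ← Real.rpow_natCast, ← Real.rpow_mul hr0.le]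
    norm_num
  have hzG : (z : ℝ) ^ (19 + 3 * C0 + 2 * K) ≤ (r : ℝ) ^ (1 / 16 : ℝ) := by
    have h2 : ((z : ℝ) ^ (19 + 3 * C0 + 2 * K)) ^ (16 : ℕ) ≤ r := by
      rw [← pow_mul, mul_comm]
      exact_mod_cast hzr
    have h3 : (((z : ℝ) ^ (19 + 3 * C0 + 2 * K)) ^ (16 : ℕ)) ^ (1 / 16 : ℝ) ≤
        (r : ℝ) ^ (1 / 16 : ℝ) := Real.rpow_le_rpow (by positivity) h2 (by norm_num)
    have h4 : (((z : ℝ) ^ (19 + 3 * C0 + 2 * K)) ^ (16 : ℕ)) ^ (1 / 16 : ℝ) =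
        (z : ℝ) ^ (19 + 3 * C0 + 2 * K) := by
      have h5 : (1 / 16 : ℝ) = ((16 : ℕ) : ℝ)⁻¹ := by norm_num
      rw [h5]
      exact Real.pow_rpow_inv_natCast (by positivity) (by norm_num)
    rwa [h4] at h3
  have hc : (320 : ℝ) * 1156 ≤ (z : ℝ) ^ 19 := by
    have h2 : (2 : ℝ) ^ 19 ≤ (z : ℝ) ^ 19 := pow_le_pow_left₀ (by norm_num) hz2 19
    norm_num at h2
    linarith
  have h78 : (r : ℝ) ^ (1 / 16 : ℝ) * ((r : ℝ) ^ (3 / 4 : ℝ) * (r : ℝ) ^ (1 / 16 : ℝ)) ≤ r := by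
    rw [← Real.rpow_add hr0, ← Real.rpow_add hr0]
    calc (r : ℝ) ^ (1 / 16 + (3 / 4 + 1 / 16) : ℝ) ≤ (r : ℝ) ^ (1 : ℝ) :=
          Real.rpow_le_rpow_of_exponent_le hr1 (by norm_num)
      _ = r := Real.rpow_one _
  calc 320 * (z : ℝ) ^ (3 * C0 + 2 * K) * ((r : ℝ) ^ (3 / 4 : ℝ) * (Real.log r + 2) ^ 2)
      ≤ 320 * (z : ℝ) ^ (3 * C0 + 2 * K) * ((r : ℝ) ^ (3 / 4 : ℝ) * (1156 * x ^ 2)) := by
        gcongr
    _ = (320 * 1156) * (z : ℝ) ^ (3 * C0 + 2 * K) * ((r : ℝ) ^ (3 / 4 : ℝ) * x ^ 2) := by ring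
    _ ≤ (z : ℝ) ^ 19 * (z : ℝ) ^ (3 * C0 + 2 * K) * ((r : ℝ) ^ (3 / 4 : ℝ) * x ^ 2) := by
        gcongr
    _ = (z : ℝ) ^ (19 + 3 * C0 + 2 * K) * ((r : ℝ) ^ (3 / 4 : ℝ) * (r : ℝ) ^ (1 / 16 : ℝ)) := by
        rw [hx2, ← pow_add, add_assoc 19 (3 * C0) (2 * K)]
    _ ≤ (r : ℝ) ^ (1 / 16 : ℝ) * ((r : ℝ) ^ (3 / 4 : ℝ) * (r : ℝ) ^ (1 / 16 : ℝ)) := by
        gcongr
    _ ≤ r := h78

/-- PROOF. As `sieve_count` (ap/SieveApp.lean), with `range T` replaced by `PT L r M`, `crt_count` by `level` (or helper43's `sieve_abs`), `g p = |B p| / p ^ 2 ≤ K / p` in `brun_hooley`. Error at most `z ^ C0` sets `A`, each `5 z ^ (2 C0) r ^ (3/4) (log r + 2)^2`; main term at least `(1/2) (M^2/r) z ^ (-2K)` (`prod_lower`), `M^2/r ≥ r/16`: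
need `r ^ (1/4) ≥ 320 (log r + 2)^2 z ^ (3 C0 + 2 K)`, true for `z ^ C ≤ r` with `C` large (`(log r + 2)^2 ≤ C' r^(1/8)`, `z ≥ 2`). As `1 - K/p ≤ 1 - g p`, at least `(M^2/(4 r)) ∏ (1 - K/p)` pairs remain. -/
theorem sieve_pairs (K : ℕ) (hK : 1 ≤ K) : ∃ C : ℕ, ∀ z r M L : ℕ, 2 ≤ z → z ^ C ≤ r → r.Prime → ¬ r ∣ L →
    M ≤ r → r ≤ 4 * M → ∀ B : ℕ → Finset (ℕ × ℕ),
    (∀ p ∈ PP K z, B p ⊆ range p ×ˢ range p ∧ (B p).card ≤ K * p) →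
    (M : ℝ) ^ 2 / (4 * r) * ∏ p ∈ PP K z, (1 - (K : ℝ) / p) ≤
      (((PT L r M).filter (fun t => ∀ p ∈ PP K z, (t.1 % p, t.2 % p) ∉ B p)).card : ℝ) := by
  have _ := hK
  obtain ⟨C0, hC0⟩ := sieve_abs K
  refine ⟨16 * (19 + 3 * C0 + 2 * K), ?_⟩
  intro z r M L hz hzr hr hrL hMr hrM B hB
  have herr := sieve_pairs_err C0 K z r hz hzr
  have hzlt : z < r := by
    have h1 : z ^ 2 ≤ z ^ (16 * (19 + 3 * C0 + 2 * K)) := Nat.pow_le_pow_right (by omega) (by omega)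
    have h2 : z < z ^ 2 := by nlinarith
    omega
  have hr0 : (0 : ℝ) < r := by exact_mod_cast hr.pos
  have hr1 : (1 : ℝ) ≤ r := by exact_mod_cast hr.one_lt.le
  have hz0 : (0 : ℝ) < z := by exact_mod_cast (by omega : 0 < z)
  have hlog0 : 0 ≤ Real.log r := Real.log_nonneg hr1
  set T : ℝ := (r : ℝ) ^ (3 / 4 : ℝ) * (Real.log r + 2) ^ 2 with hT
  have hT0 : 0 ≤ T := by positivity
  have hppos : ∀ p ∈ PP K z, (0 : ℝ) < p := fun p hp => by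
    exact_mod_cast (mem_PP'.mp hp).2.pos
  have hg : ∀ p ∈ PP K z, 0 ≤ ((B p).card : ℝ) / (p : ℝ) ^ 2 ∧
      ((B p).card : ℝ) / (p : ℝ) ^ 2 ≤ (K : ℝ) / p := by
    intro p hp
    have hp0 := hppos p hp
    refine ⟨by positivity, ?_⟩
    rw [div_le_div_iff₀ (by positivity) hp0]
    have h1 : ((B p).card : ℝ) ≤ K * p := by exact_mod_cast (hB p hp).2
    calc ((B p).card : ℝ) * p ≤ (K * p) * p := mul_le_mul_of_nonneg_right h1 hp0.le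
      _ = K * (p : ℝ) ^ 2 := by ring
  have key := hC0 z hz (PT L r M) (fun p t => (t.1 % p, t.2 % p) ∈ B p) ((M : ℝ) ^ 2 / r)
    (5 * (z : ℝ) ^ (2 * C0) * T) (fun p => ((B p).card : ℝ) / (p : ℝ) ^ 2) (by positivity)
    (by positivity) hg (by
      intro A hA hprod
      have h := level L r M hr hrL hMr A (fun p hp => (mem_PP'.mp (hA hp)).2)
        (fun hrA => by
          have := (mem_PP'.mp (hA hrA)).1.2
          omega) B (fun p hp => (hB p (hA hp)).1)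
      refine h.trans ?_
      have h1 : ((∏ p ∈ A, p : ℕ) : ℝ) ^ 2 ≤ (z : ℝ) ^ (2 * C0) := by
        have h2 : ((∏ p ∈ A, p : ℕ) : ℝ) ≤ (z : ℝ) ^ C0 := by exact_mod_cast hprod
        calc ((∏ p ∈ A, p : ℕ) : ℝ) ^ 2 ≤ ((z : ℝ) ^ C0) ^ 2 :=
              pow_le_pow_left₀ (Nat.cast_nonneg _) h2 2
          _ = (z : ℝ) ^ (2 * C0) := by rw [← pow_mul, mul_comm]
      exact mul_le_mul_of_nonneg_right (mul_le_mul_of_nonneg_left h1 (by norm_num)) hT0)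
  refine le_trans ?_ key
  -- comparison of the products
  set W : ℝ := ∏ p ∈ PP K z, (1 - (K : ℝ) / p) with hW
  have hW1 : 1 / (z : ℝ) ^ (2 * K) ≤ W := prod_lower K z (by omega)
  have hW2 : W ≤ ∏ p ∈ PP K z, (1 - ((B p).card : ℝ) / (p : ℝ) ^ 2) := by
    refine Finset.prod_le_prod ?_ ?_
    · intro p hp
      have hp0 := hppos p hp
      rw [sub_nonneg, div_le_one hp0]
      have : K ≤ p := by have := (mem_PP'.mp hp).1.1; omega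
      exact_mod_cast this
    · intro p hp
      have := (hg p hp).2
      linarith
  have hX : (r : ℝ) / 16 ≤ (M : ℝ) ^ 2 / r := by
    rw [div_le_div_iff₀ (by norm_num) hr0]
    have h1 : (r : ℝ) ≤ 4 * M := by exact_mod_cast hrM
    nlinarith
  have hX0 : (0 : ℝ) ≤ (M : ℝ) ^ 2 / r := by positivity
  have h1 : (z : ℝ) ^ C0 * (5 * (z : ℝ) ^ (2 * C0) * T) ≤ (M : ℝ) ^ 2 / r / 4 * W := by
    have h2 : (M : ℝ) ^ 2 / r / 4 * (1 / (z : ℝ) ^ (2 * K)) ≤ (M : ℝ) ^ 2 / r / 4 * W :=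
      mul_le_mul_of_nonneg_left hW1 (by positivity)
    refine le_trans ?_ h2
    rw [mul_one_div, le_div_iff₀ (by positivity)]
    have h3 : (z : ℝ) ^ C0 * (5 * (z : ℝ) ^ (2 * C0) * T) * (z : ℝ) ^ (2 * K) =
        (320 * (z : ℝ) ^ (3 * C0 + 2 * K) * T) / 64 := by
      rw [show 3 * C0 + 2 * K = C0 + 2 * C0 + 2 * K by ring, pow_add, pow_add]
      ring
    rw [h3]
    linarith
  have h2 : (M : ℝ) ^ 2 / r / 2 * W ≤
      (M : ℝ) ^ 2 / r / 2 * ∏ p ∈ PP K z, (1 - ((B p).card : ℝ) / (p : ℝ) ^ 2) :=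
    mul_le_mul_of_nonneg_left hW2 (by positivity)
  have h3 : (M : ℝ) ^ 2 / (4 * r) * W = (M : ℝ) ^ 2 / r / 2 * W - (M : ℝ) ^ 2 / r / 4 * W := by
    field_simp
    ring
  rw [h3]
  linarith

end Pool.Agent.OmKl
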