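import Pool.Agent.Lib_MP_f1a94e_kl.Defs

/-!
# Piece KL6: local densities
-/

set_option autoImplicit false

namespace Pool.Agent.OmKl

open Finset ArithmeticFunction Pool.Agent.OmAP

/-- PROOF. `ring` after multiplying out: `r * w2 = L ^ 2 * (b * c) + 1`. -/
theorem loc_nm (u : ℤ × ℤ) (L r b c w2 : ℕ) (h : L ^ 2 * (b * c) + 1 = r * w2) :
    (r : ℤ) ^ 2 * nm (lin u ((r : ℤ), (L : ℤ) * b) ((L : ℤ) * c, (w2 : ℤ))) = locF u L r b c := by
  have h' : (L : ℤ) ^ 2 * (b * c) + 1 = r * w2 := by exact_mod_cast h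
  simp only [nm, lin, locF]
  have e : (r : ℤ) * (u.1 * (L * b) + u.2 * w2) =
      u.2 + L * b * (u.1 * r + u.2 * (L * c)) := by
    linear_combination -u.2 * h'
  rw [← e]
  ring

theorem loc_cast (u : ℤ × ℤ) (L r p b c : ℕ) :
    ((locF u L r b c : ℤ) : ZMod p) =
      ((r : ZMod p) * (u.1 * r + u.2 * (L * c))) ^ 2 +
        (u.2 + L * b * (u.1 * r + u.2 * (L * c))) ^ 2 := by
  unfold locF
  push_cast
  ring

/-- PROOF. `b ≡ b % p`, `c ≡ c % p` modulo `p` and `locF` is a polynomial (`Int.ModEq`, or work in `ZMod p`). -/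
theorem loc_mod (u : ℤ × ℤ) (L r p b c : ℕ) :
    (p : ℤ) ∣ locF u L r b c ↔ (p : ℤ) ∣ locF u L r (b % p) (c % p) := by
  rw [← ZMod.intCast_zmod_eq_zero_iff_dvd, ← ZMod.intCast_zmod_eq_zero_iff_dvd, loc_cast, loc_cast,
    ZMod.natCast_mod, ZMod.natCast_mod]

theorem loc_card_one (u : ℤ × ℤ) (L r p c : ℕ) (hp : p.Prime) (hpL : ¬ p ∣ L) (hu : u.2 ∣ (L : ℤ)) :
    ((range p).filter (fun b => (p : ℤ) ∣ locF u L r b c)).card ≤ 2 := by
  classical
  haveI := Fact.mk hp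
  have hL : (L : ZMod p) ≠ 0 := by
    rw [Ne, ZMod.natCast_eq_zero_iff]
    exact hpL
  have hu2 : (u.2 : ZMod p) ≠ 0 := by
    rw [Ne, ZMod.intCast_zmod_eq_zero_iff_dvd]
    intro h
    exact hpL (Int.natCast_dvd_natCast.1 (h.trans hu))
  set κ : ZMod p := u.1 * r + u.2 * (L * c) with hκ
  have hiff : ∀ b : ℕ, (p : ℤ) ∣ locF u L r b c →
      ((r : ZMod p) * κ) ^ 2 + (u.2 + L * b * κ) ^ 2 = 0 := by
    intro b hb
    rw [← ZMod.intCast_zmod_eq_zero_iff_dvd, loc_cast] at hb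
    exact hb
  rcases ((range p).filter (fun b => (p : ℤ) ∣ locF u L r b c)).eq_empty_or_nonempty with h0 | ⟨b0, hb0⟩
  · rw [h0]
    simp
  have hb0' := hiff b0 (mem_filter.1 hb0).2
  have hκ0 : κ ≠ 0 := by
    intro h
    rw [h] at hb0'
    simp only [mul_zero, add_zero] at hb0'
    have : (u.2 : ZMod p) ^ 2 = 0 := by
      rw [← hb0']
      ring
    exact hu2 (pow_eq_zero_iff (two_ne_zero) |>.1 this)
  set x : ZMod p := u.2 + L * b0 * κ with hx
  have hsub : ((range p).filter (fun b => (p : ℤ) ∣ locF u L r b c)).image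
      (fun b : ℕ => (u.2 : ZMod p) + L * b * κ) ⊆ {x, -x} := by
    intro y hy
    obtain ⟨b, hb, rfl⟩ := mem_image.1 hy
    have hb' := hiff b (mem_filter.1 hb).2
    have h1 : ((u.2 : ZMod p) + L * b * κ) ^ 2 = x ^ 2 := by
      linear_combination hb' - hb0'
    rw [mem_insert, mem_singleton]
    exact sq_eq_sq_iff_eq_or_eq_neg.1 h1
  have hinj : Set.InjOn (fun b : ℕ => (u.2 : ZMod p) + L * b * κ)
      ((range p).filter (fun b => (p : ℤ) ∣ locF u L r b c)) := by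
    intro b hb b' hb' h
    have hb1 := mem_range.1 (mem_filter.1 (mem_coe.1 hb)).1
    have hb2 := mem_range.1 (mem_filter.1 (mem_coe.1 hb')).1
    simp only at h
    have h2 : (b : ZMod p) = b' := by
      have h3 : (L : ZMod p) * κ * b = L * κ * b' := by linear_combination h
      exact mul_left_cancel₀ (mul_ne_zero hL hκ0) h3
    rw [ZMod.natCast_eq_natCast_iff'] at h2
    rwa [Nat.mod_eq_of_lt hb1, Nat.mod_eq_of_lt hb2] at h2
  rw [← card_image_of_injOn hinj]
  exact (card_le_card hsub).trans card_le_two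

/-- PROOF. Fix `c` and put `κ = u.1 r + u.2 L c` in `ZMod p`. If `κ = 0` then `locF = u.2 ^ 2 ≠ 0` (`u.2 ∣ L`, `p ∤ L`): no `b`. If `κ ≠ 0` then `locF` is a polynomial of degree two in `b` with leading coefficient `(L κ) ^ 2 ≠ 0`: at most two `b` (e.g. two roots `b, b'` of `(r κ)^2 + (u.2 + L κ b)^2 = 0`
satisfy `u.2 + L κ b = ± (u.2 + L κ b')`; `Polynomial.card_roots'` also works; compare `roots_card` in ap/Roots.lean). -/
theorem loc_card (u : ℤ × ℤ) (L r p : ℕ) (hp : p.Prime) (hpL : ¬ p ∣ L) (hu : u.2 ∣ (L : ℤ)) :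
    ((range p ×ˢ range p).filter (fun t => (p : ℤ) ∣ locF u L r t.1 t.2)).card ≤ 2 * p := by
  classical
  have hsub : (range p ×ˢ range p).filter (fun t => (p : ℤ) ∣ locF u L r t.1 t.2) ⊆
      (range p).biUnion fun c => ((range p).filter (fun b => (p : ℤ) ∣ locF u L r b c)).image
        fun b => (b, c) := by
    rintro ⟨b, c⟩ h
    rw [mem_filter, mem_product] at h
    exact mem_biUnion.2 ⟨c, h.1.2, mem_image.2 ⟨b, mem_filter.2 ⟨h.1.1, h.2⟩, rfl⟩⟩
  calc _ ≤ _ := card_le_card hsub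
    _ ≤ ∑ c ∈ range p, (((range p).filter (fun b => (p : ℤ) ∣ locF u L r b c)).image
        fun b => (b, c)).card := card_biUnion_le
    _ ≤ ∑ c ∈ range p, 2 := sum_le_sum fun c _ =>
        card_image_le.trans (loc_card_one u L r p c hp hpL hu)
    _ = 2 * p := by rw [sum_const, card_range, smul_eq_mul, mul_comm]

end Pool.Agent.OmKl
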